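import Pool.Agent.P8H47.EC2.Sy

/-! # Project EC2: the number of symbols, `-1 ∈ F*^p` -/

set_option autoImplicit false

open Module Submodule Function

namespace Pool.Agent.P8H47.EC2

open Pool.Agent.N908.FR (Forms Est IsSymbol mem_Forms)
open Pool.Agent.Results.MP_600e55_nt.SymbolPartitions

variable {p : ℕ} [Fact p.Prime] {F : Type} [Field F] {c : Fˣ → Fˣ → ZMod p}
  {V : Type} [AddCommGroup V] [Module (ZMod p) V] [FiniteDimensional (ZMod p) V]

theorem exists_form' (hm : (-1 : Fˣ) ∈ powers F p) {q : Fˣ → V}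
    (hq : ∀ a b, q (a * b) = q a + q b)
    (hs : Surjective q) (hk : ∀ a, q a = 0 ↔ a ∈ powers F p) (h : IsSymbol p F c) :
    ∃ β ∈ Forms (ZMod p) (Est q), ∀ a b, β (q a) (q b) = c a b := by
  have hq1 : q 1 = 0 := (hk 1).2 (one_mem _)
  have hqi : ∀ a, q a⁻¹ = - q a := fun a => by
    have := hq a a⁻¹
    rw [mul_inv_cancel, hq1] at this
    exact (neg_eq_of_add_eq_zero_right this.symm).symm
  have hdiv : ∀ a b, q a = q b → a * b⁻¹ ∈ powers F p := fun a b hab => by
    rw [← hk, hq, hqi, hab, add_neg_cancel]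
  have hl : ∀ a b x, q a = q b → c a x = c b x := fun a b x hab => by
    have h1 := h.of_mem_left (hdiv a b hab) x
    rw [h.mul_left, h.inv_left, ← sub_eq_add_neg, sub_eq_zero] at h1
    exact h1
  have hr : ∀ a b x, q a = q b → c x a = c x b := fun a b x hab => by
    have h1 := h.of_mem_right (hdiv a b hab) x
    rw [h.mul_right, h.inv_right, ← sub_eq_add_neg, sub_eq_zero] at h1
    exact h1
  set s : V → Fˣ := surjInv hs with hsdef
  have hqs : ∀ x, q (s x) = x := surjInv_eq hs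
  let β₁ : V → (V →ₗ[ZMod p] ZMod p) := fun x => AddMonoidHom.toZModLinearMap p
    (AddMonoidHom.mk' (fun y => c (s x) (s y)) fun y z => by
      rw [← h.mul_right]
      exact hr _ _ _ (by rw [hqs, hq, hqs, hqs]))
  have hβ₁ : ∀ x y, β₁ x y = c (s x) (s y) := fun x y => rfl
  let β : V →ₗ[ZMod p] V →ₗ[ZMod p] ZMod p := AddMonoidHom.toZModLinearMap p
    (AddMonoidHom.mk' β₁ fun x y => by
      refine LinearMap.ext fun z => ?_
      rw [LinearMap.add_apply, hβ₁, hβ₁, hβ₁, ← h.mul_left]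
      exact hl _ _ _ (by rw [hqs, hq, hqs, hqs]))
  have hβ : ∀ x y, β x y = c (s x) (s y) := fun x y => rfl
  have hβq : ∀ a b, β (q a) (q b) = c a b := fun a b => by
    rw [hβ, hl _ a _ (hqs _), hr _ b _ (hqs _)]
  refine ⟨β, mem_Forms.2 ⟨fun x => ?_, ?_⟩, hβq⟩
  · rw [hβ]
    exact self0 hm h _
  · rintro x y ⟨a, b, hab, rfl, rfl⟩
    rw [hβq]
    exact one_add0 hm h a b hab

/-- symbols and forms -/
theorem card_symbols' (hm : (-1 : Fˣ) ∈ powers F p) {q : Fˣ → V}
    (hq : ∀ a b, q (a * b) = q a + q b)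
    (hs : Surjective q) (hk : ∀ a, q a = 0 ↔ a ∈ powers F p) :
    Nat.card {c : Fˣ → Fˣ → ZMod p // IsSymbol p F c} =
      p ^ finrank (ZMod p) (Forms (ZMod p) (Est q)) := by
  have h1 : Nat.card (Forms (ZMod p) (Est q)) =
      p ^ finrank (ZMod p) (Forms (ZMod p) (Est q)) := by
    let _ : AddCommGroup (Forms (ZMod p) (Est q)) := Module.addCommMonoidToAddCommGroup (ZMod p)
    have h0 := Module.natCard_eq_pow_finrank (K := ZMod p) (V := Forms (ZMod p) (Est q))
    rwa [Nat.card_zmod] at h0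
  rw [← h1]
  have : Finite (Forms (ZMod p) (Est q)) := Module.finite_of_finite (ZMod p)
  choose f hf hf' using fun c : {c : Fˣ → Fˣ → ZMod p // IsSymbol p F c} =>
    exists_form' hm hq hs hk c.2
  have hinj : Injective (fun c => (⟨f c, hf c⟩ : Forms (ZMod p) (Est q))) := by
    intro c c' h
    have h2 : f c = f c' := congrArg Subtype.val h
    apply Subtype.ext
    funext a b
    rw [← hf', ← hf', h2]
  have hfin : Finite {c : Fˣ → Fˣ → ZMod p // IsSymbol p F c} := Finite.of_injective _ hinj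
  apply le_antisymm (Nat.card_le_card_of_injective _ hinj)
  have hneg : ∀ x, q (-x) = q x := by
    intro x
    rw [show -x = (-1) * x by simp, hq, (hk _).2 hm, zero_add]
  refine Nat.card_le_card_of_injective (fun β : Forms (ZMod p) (Est q) =>
    (⟨fun a b => β.1 (q a) (q b), ⟨?_, ?_, ?_⟩⟩ : {c : Fˣ → Fˣ → ZMod p // IsSymbol p F c})) ?_
  · intro a b x
    rw [hq, map_add, LinearMap.add_apply]
  · intro x a b
    rw [hq, map_add]
  · intro x y hxy
    refine β.2.2 _ _ ⟨-x, y, ?_, hneg x, rfl⟩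
    rw [Units.val_neg]
    linear_combination hxy
  · intro β γ h
    refine Subtype.ext (LinearMap.ext fun x => LinearMap.ext fun y => ?_)
    obtain ⟨a, rfl⟩ := hs x
    obtain ⟨b, rfl⟩ := hs y
    exact congrFun (congrFun (congrArg Subtype.val h) a) b

end Pool.Agent.P8H47.EC2
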