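import Pool.Agent.P8H47.EC2.Stm
import Pool.Agent.P8H48.EC.Lin

/-! # Project EC2: a bound for spaces of alternating forms -/

set_option autoImplicit false

open Module Submodule

namespace Pool.Agent.P8H47.EC2

open Pool.Agent.N908.FR (Forms)
open Pool.Agent.P8H48.EC (skew)

variable {k V : Type} [Field k] [AddCommGroup V] [Module k V] [FiniteDimensional k V]
  {E : V → V → Prop}

theorem fb (E : V → V → Prop) :
    finrank k (Forms k E) ≤ finrank k V * (finrank k V - 1) / 2 := by
  have h := Pool.Agent.N908.FR.forms_le (k := k) (V := V) rfl E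
  rw [Nat.le_div_iff_mul_le two_pos]
  have e : finrank k V * (finrank k V - 1) + finrank k V = finrank k V * finrank k V := by
    rcases finrank k V with - | m
    · rfl
    · simp; ring
  omega

omit [FiniteDimensional k V] in
theorem free_forms (E : V → V → Prop) : Module.Free k ↥(Forms k E) := by
  letI : AddCommGroup ↥(Forms k E) := Module.addCommMonoidToAddCommGroup k
  exact Module.Free.of_divisionRing k ↥(Forms k E)

/-- restriction of a form to a subspace -/
def res (U : Submodule k V) : Forms k E →ₗ[k] Forms k (V := U) (fun _ _ => False) where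
  toFun := fun β => ⟨β.1.compl₁₂ U.subtype U.subtype, fun x => β.2.1 x, fun _ _ h => h.elim⟩
  map_add' := fun _ _ => rfl
  map_smul' := fun _ _ => rfl

omit [FiniteDimensional k V] in
theorem res_eq_zero {U : Submodule k V} {β : Forms k E} (h : res U β = 0) {x y : V}
    (hx : x ∈ U) (hy : y ∈ U) : β.1 x y = 0 := by
  have h6 := congrArg Subtype.val h
  exact LinearMap.congr_fun (LinearMap.congr_fun h6 ⟨x, hx⟩) ⟨y, hy⟩

theorem lb2 {ι : Type} [Fintype ι] (D : Submodule k V) (W : ι → Submodule k V)
    (hD : ∀ t ∈ D, ∀ x : V, ∃ t' ∈ D, E (x + t') t)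
    (hW : ∀ x : V, ∃ d ∈ D, ∃ w : ι → V, (∀ i, w i ∈ W i) ∧ x = d + ∑ i, w i)
    (hWW : ∀ i j, i ≠ j → ∀ x ∈ W i, ∀ y ∈ W j, ∃ t ∈ D, ∃ t' ∈ D, E (x + t) (y + t')) :
    finrank k (Forms k E) ≤ finrank k D * (finrank k D - 1) / 2 +
      ∑ i, finrank k (W i) * (finrank k (W i) - 1) / 2 := by
  classical
  let φ : Forms k E →ₗ[k] Forms k (V := D) (fun _ _ => False) ×
      ((i : ι) → Forms k (V := W i) (fun _ _ => False)) :=
    LinearMap.prod (res D) (LinearMap.pi fun i => res (W i))
  have hφ : Function.Injective φ := by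
    have hker : ∀ β, φ β = 0 → β = 0 := by
      intro β hβ
      have h1 : res D β = 0 := congrArg Prod.fst hβ
      have h2 : ∀ i, res (W i) β = 0 := fun i => congrFun (congrArg Prod.snd hβ) i
      have hs := skew β.2.1
      have hD1 : ∀ t ∈ D, ∀ x, β.1 t x = 0 := by
        intro t ht x
        obtain ⟨t', ht', hE⟩ := hD t ht x
        have h3 := β.2.2 _ _ hE
        rw [map_add, LinearMap.add_apply, res_eq_zero h1 ht' ht, add_zero] at h3
        rw [hs x t, h3, neg_zero]
      have hD2 : ∀ t ∈ D, ∀ x, β.1 x t = 0 := by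
        intro t ht x
        rw [hs t x, hD1 t ht x, neg_zero]
      have hij : ∀ i j, ∀ x ∈ W i, ∀ y ∈ W j, β.1 x y = 0 := by
        intro i j x hx y hy
        by_cases h : i = j
        · subst h
          exact res_eq_zero (h2 i) hx hy
        · obtain ⟨t, ht, t', ht', hE⟩ := hWW i j h x hx y hy
          have h3 := β.2.2 _ _ hE
          rw [map_add, map_add, LinearMap.add_apply, LinearMap.add_apply, hD1 t ht, hD1 t ht,
            hD2 t' ht', add_zero, add_zero, add_zero] at h3
          exact h3
      apply Subtype.ext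
      refine LinearMap.ext fun x => LinearMap.ext fun y => ?_
      obtain ⟨d, hd, w, hw, rfl⟩ := hW x
      obtain ⟨d', hd', w', hw', rfl⟩ := hW y
      have e2 : ∀ y, β.1 (∑ i, w i) y = ∑ i, β.1 (w i) y := by
        intro y
        rw [map_sum, LinearMap.sum_apply]
      have e4 : ∀ y, β.1 (d + ∑ i, w i) y = ∑ i, β.1 (w i) y := by
        intro y
        rw [map_add, LinearMap.add_apply, hD1 d hd, zero_add, e2]
      change β.1 (d + ∑ i, w i) (d' + ∑ i, w' i) = 0
      rw [e4]
      refine Finset.sum_eq_zero fun i _ => ?_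
      rw [map_add, hD2 d' hd', zero_add, map_sum]
      exact Finset.sum_eq_zero fun j _ => hij i j _ (hw i) _ (hw' j)
    intro β γ h
    have h3 : φ (β + (-1 : k) • γ) = 0 := by
      rw [map_add, map_smul, h]
      refine Prod.ext ?_ (funext fun i => ?_)
      · refine Subtype.ext (LinearMap.ext fun x => LinearMap.ext fun y => ?_)
        change (φ γ).1.1 x y + (-1 : k) • (φ γ).1.1 x y = 0
        simp
      · refine Subtype.ext (LinearMap.ext fun x => LinearMap.ext fun y => ?_)
        change ((φ γ).2 i).1 x y + (-1 : k) • ((φ γ).2 i).1 x y = 0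
        simp
    have h4 := hker _ h3
    refine Subtype.ext (LinearMap.ext fun x => LinearMap.ext fun y => ?_)
    have h5 : β.1 x y + (-1 : k) • γ.1 x y = 0 :=
      LinearMap.congr_fun (LinearMap.congr_fun (congrArg Subtype.val h4) x) y
    rw [smul_eq_mul, neg_one_mul, ← sub_eq_add_neg] at h5
    exact sub_eq_zero.1 h5
  have h1 := LinearMap.finrank_le_finrank_of_injective hφ
  refine h1.trans ?_
  have hfD := free_forms (k := k) (V := D) (fun _ _ => False)
  have hfW : ∀ i, Module.Free k (Forms k (V := W i) (fun _ _ => False)) := fun i =>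
    free_forms (k := k) (V := W i) (fun _ _ => False)
  rw [Module.finrank_prod, Module.finrank_pi_fintype]
  exact Nat.add_le_add (fb _) (Finset.sum_le_sum fun i _ => fb _)

end Pool.Agent.P8H47.EC2
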