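import Pool.Agent.P8H47.EC2.Sy
import Pool.Agent.P8H47.EC2.Lb2
import Pool.Agent.P8H47.EC.Asm

/-! # Project EC2: counting symbols -/

set_option autoImplicit false

open Module Submodule Function

namespace Pool.Agent.P8H47.EC2

open Pool.Agent.Y920.EP
open Pool.Agent.P8H47.EC
open Pool.Agent.N908.FR (Forms Est IsSymbol sg mem_sg relIndex_sg card_symbols exists_form)
open Pool.Agent.Results.MP_600e55_nt.SymbolPartitions

section

variable {p : ℕ} [Fact p.Prime] {F : Type} [Field F] {ι : Type} [Fintype ι] [Nonempty ι]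
  {T : ι → Subgroup Fˣ} {O : ι → ValuationSubring F} {J : ι → Set F}
  (h : ∀ i, Dat p (T i) (O i) (J i))

omit [Nonempty ι] in
include h in
/-- `F*/D = ∏ F*/T_i` -/
theorem index_inf (ap : S_AP) (hne : ∀ i j, i ≠ j → ¬ T i ≤ T j) :
    (⨅ i, T i).index = ∏ i, (T i).index := by
  have hsur : Function.Surjective (Subgroup.quotientiInfEmbedding T) := by
    intro y
    choose x hx using fun i => QuotientGroup.mk_surjective (y i)
    obtain ⟨z, hz⟩ := claim3 h ap hne Finset.univ x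
    refine ⟨QuotientGroup.mk z, funext fun i => ?_⟩
    rw [Subgroup.quotientiInfEmbedding_apply_mk, ← hx i, eq_comm, QuotientGroup.eq]
    exact (hz i (Finset.mem_univ i)).1
  have h1 := Nat.card_congr (Equiv.ofBijective _
    ⟨(Subgroup.quotientiInfEmbedding T).injective, hsur⟩)
  rw [Nat.card_pi] at h1
  exact h1

variable {V : Type} [AddCommGroup V] [Module (ZMod p) V] [FiniteDimensional (ZMod p) V]
  {q : Fˣ → V} (hq : ∀ a b, q (a * b) = q a + q b) (hs : Surjective q)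
  (hk : ∀ a, q a = 0 ↔ a ∈ powers F p)

omit [Fintype ι] in
include h in
theorem D_le : pwG F p ≤ ⨅ i, T i := le_iInf fun i => (h i).pw

include h hs hk in
/-- the bound for the dimension of the space of forms -/
theorem forms_bound (cl : S_CL) (ap : S_AP) (hm : (-1 : Fˣ) ∈ powers F p)
    (hne : ∀ i j, i ≠ j → ¬ T i ≤ T j) :
    finrank (ZMod p) (Forms (ZMod p) (Est q)) ≤
      finrank (ZMod p) (sp p hq (⨅ i, T i)) * (finrank (ZMod p) (sp p hq (⨅ i, T i)) - 1) / 2 +
        ∑ i, (finrank (ZMod p) V - finrank (ZMod p) (sp p hq (T i))) *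
          (finrank (ZMod p) V - finrank (ZMod p) (sp p hq (T i)) - 1) / 2 := by
  classical
  have hp0 : p ≠ 0 := (Fact.out : p.Prime).ne_zero
  have hTV : ∀ i a, q a ∈ sp p hq (T i) ↔ a ∈ T i := fun i a => mem_sp_iff hq hk (h i).pw
  have hDV : ∀ a, q a ∈ sp p hq (⨅ i, T i) ↔ a ∈ ⨅ i, T i := fun a => mem_sp_iff hq hk (D_le h)
  -- the groups `W i`
  let W : ι → Subgroup Fˣ := fun i => ⨅ j, ⨅ (_ : j ≠ i), T j
  have hW : ∀ i a, a ∈ W i ↔ ∀ j, j ≠ i → a ∈ T j := by
    intro i a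
    simp only [W, Subgroup.mem_iInf]
  have hWpw : ∀ i, pwG F p ≤ W i := fun i a ha => (hW i a).2 fun j _ => (h j).pw ha
  have hWV : ∀ i a, q a ∈ sp p hq (W i) ↔ a ∈ W i := fun i a => mem_sp_iff hq hk (hWpw i)
  have hDW : ∀ i, sp p hq (⨅ i, T i) ≤ sp p hq (W i) := by
    intro i x hx
    obtain ⟨a, ha, rfl⟩ := (mem_sp hq).1 hx
    exact (mem_sp hq).2 ⟨a, (hW i a).2 fun j _ => (Subgroup.mem_iInf.1 ha) j, rfl⟩
  obtain ⟨C, hC⟩ := Submodule.exists_isCompl (sp p hq (⨅ i, T i))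
  -- components
  have he : ∀ (i : ι) (x : Fˣ), ∃ z : Fˣ, x⁻¹ * z ∈ T i ∧ z ∈ W i := by
    intro i x
    obtain ⟨z, hz⟩ := claim3 h ap hne Finset.univ (fun j => if j = i then x else 1)
    refine ⟨z, ?_, (hW i z).2 fun j hj => ?_⟩
    · have := (hz i (Finset.mem_univ i)).1
      rwa [if_pos rfl] at this
    · have := (hz j (Finset.mem_univ j)).1
      rw [if_neg hj] at this
      simpa using this
  choose e he1 he2 using he
  have hmod : ∀ i x, x ∈ sp p hq (W i) → ∃ d ∈ sp p hq (⨅ i, T i), ∃ c ∈ sp p hq (W i) ⊓ C,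
      x = d + c := by
    intro i x hx
    have h1 : x ∈ sp p hq (⨅ i, T i) ⊔ C := by rw [hC.sup_eq_top]; trivial
    obtain ⟨d, hd, c, hc, rfl⟩ := Submodule.mem_sup.1 h1
    refine ⟨d, hd, c, ⟨?_, hc⟩, rfl⟩
    have h2 := sub_mem hx (hDW i hd)
    rwa [add_sub_cancel_left] at h2
  have hfr : ∀ i, finrank (ZMod p) ↥(sp p hq (W i) ⊓ C) =
      finrank (ZMod p) V - finrank (ZMod p) (sp p hq (T i)) := by
    intro i
    have h1 : IsCompl (sp p hq (W i) ⊓ C) (sp p hq (T i)) := by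
      constructor
      · rw [disjoint_iff, eq_bot_iff]
        rintro x ⟨⟨hx1, hx2⟩, hx3⟩
        have hx4 : x ∈ sp p hq (⨅ i, T i) := by
          obtain ⟨a, ha, rfl⟩ := (mem_sp hq).1 hx1
          rw [hDV, Subgroup.mem_iInf]
          intro j
          by_cases hj : j = i
          · rw [hj]; exact (hTV i a).1 hx3
          · exact (hW i a).1 ha j hj
        have h2 : x ∈ sp p hq (⨅ i, T i) ⊓ C := ⟨hx4, hx2⟩
        rwa [hC.inf_eq_bot] at h2
      · rw [codisjoint_iff, eq_top_iff]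
        intro x _
        obtain ⟨a, rfl⟩ := hs x
        obtain ⟨d, hd, c, hc, e1⟩ := hmod i (q (e i a)) ((hWV i _).2 (he2 i a))
        have h2 : q (a⁻¹ * e i a) ∈ sp p hq (T i) := (hTV i _).2 (he1 i a)
        have h3 : d ∈ sp p hq (T i) := by
          obtain ⟨a', ha', rfl⟩ := (mem_sp hq).1 hd
          exact (hTV i _).2 ((Subgroup.mem_iInf.1 ha') i)
        have h4 : q a = c + (d - q (a⁻¹ * e i a)) := by
          rw [hq, q_inv hq hk, e1]
          abel
        rw [h4]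
        exact add_mem (Submodule.mem_sup_left hc) (Submodule.mem_sup_right (sub_mem h3 h2))
    have h5 := Submodule.finrank_add_eq_of_isCompl h1
    omega
  have key := lb2 (E := Est q) (sp p hq (⨅ i, T i)) (fun i => sp p hq (W i) ⊓ C) ?_ ?_ ?_
  · refine key.trans (Nat.add_le_add_left (Finset.sum_le_sum fun i _ => ?_) _)
    rw [hfr]
  · rintro t' ht' x'
    obtain ⟨t, ht, rfl⟩ := (mem_sp hq).1 ht'
    obtain ⟨x, rfl⟩ := hs x'
    obtain ⟨z, d, hz, e'⟩ := claim4 h cl ap hp0 hne Finset.univ Finset.univ_nonempty t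
      (fun i _ => (Subgroup.mem_iInf.1 ht) i) x
    refine ⟨q (x⁻¹ * z), (mem_sp hq).2 ⟨_, Subgroup.mem_iInf.2 fun i => hz i (Finset.mem_univ i), rfl⟩,
      z, t * d ^ p, ?_, ?_, ?_⟩
    · rw [Units.val_mul, Units.val_pow_eq_pow_val, e']
    · rw [← hq, mul_inv_cancel_left]
    · rw [hq, q_pow hk, add_zero]
  · intro x'
    obtain ⟨x, rfl⟩ := hs x'
    choose d hd c hc e1 using fun i => hmod i (q (e i x)) ((hWV i _).2 (he2 i x))
    have hprod : ∀ s : Finset ι, q (∏ i ∈ s, e i x) = ∑ i ∈ s, q (e i x) := by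
      intro s
      induction s using Finset.induction_on with
      | empty => rw [Finset.prod_empty, Finset.sum_empty]; exact (hk 1).2 (one_mem _)
      | insert a s ha ih => rw [Finset.prod_insert ha, Finset.sum_insert ha, hq, ih]
    have h1 : x⁻¹ * ∏ i, e i x ∈ ⨅ i, T i := by
      rw [Subgroup.mem_iInf]
      intro j
      rw [← Finset.mul_prod_erase Finset.univ (fun i => e i x) (Finset.mem_univ j), ← mul_assoc]
      exact mul_mem (he1 j x) (Subgroup.prod_mem _ fun i hi =>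
        (hW i _).1 (he2 i x) j (Finset.ne_of_mem_erase hi).symm)
    refine ⟨(∑ i, d i) - q (x⁻¹ * ∏ i, e i x), sub_mem (sum_mem fun i _ => hd i)
      ((hDV _).2 h1), c, hc, ?_⟩
    have h2 : ∑ i, q (e i x) = ∑ i, d i + ∑ i, c i := by
      rw [← Finset.sum_add_distrib]
      exact Finset.sum_congr rfl fun i _ => e1 i
    rw [hq, q_inv hq hk, hprod, h2]
    abel
  · rintro i j hij x' ⟨hx1, -⟩ y' ⟨hy1, -⟩
    obtain ⟨x, hx, rfl⟩ := (mem_sp hq).1 hx1
    obtain ⟨y, hy, rfl⟩ := (mem_sp hq).1 hy1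
    obtain ⟨z, v, hv, hzv⟩ := claim5 h ap hm hne Finset.univ Finset.univ_nonempty x y
      (by
        intro k _
        by_cases hki : k = i
        · right
          exact (hW j y).1 hy k (fun h => hij (hki.symm.trans h))
        · left
          exact (hW i x).1 hx k hki)
    refine ⟨q (x⁻¹ * z), (hDV _).2 (Subgroup.mem_iInf.2 fun k => (hzv k (Finset.mem_univ k)).1),
      q (y⁻¹ * v), (hDV _).2 (Subgroup.mem_iInf.2 fun k => (hzv k (Finset.mem_univ k)).2),
      z, v, hv, ?_, ?_⟩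
    · rw [← hq, mul_inv_cancel_left]
    · rw [← hq, mul_inv_cancel_left]

end

end Pool.Agent.P8H47.EC2
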