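import Pool.Agent.P8H47.EC2.Stm
import Pool.Agent.P8H48.EC.Lin

/-!
# Package LX2 of project EC2: partitions from alternating forms, codimension two allowed
-/

set_option autoImplicit false

open Module Submodule

namespace Pool.Agent.P8H47.EC2

open Pool.Agent.N908.FR (Forms)
open Pool.Agent.P8H48.EC

section LX2

variable {k V : Type*} [Field k] [AddCommGroup V] [Module k V] {E : V → V → Prop}
variable [FiniteDimensional k V]

theorem bound3 (h0 : ∀ T : Submodule k V, finrank k T + 2 = finrank k V → finrank k (SS E T) = 0)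
    (hN : ∀ T : Submodule k V, finrank k T + 3 ≤ finrank k V → ∃ a, a ∉ T ∧
    finrank k T + 3 ≤ finrank k (NN E T a)) (m : ℕ) : ∀ T : Submodule k V,
    finrank k T + (m + 2) = finrank k V → finrank k (SS E T) ≤ m * (m - 1) / 2 := by
  induction m with
  | zero =>
    intro T hT
    have := h0 T (by omega)
    omega
  | succ m ih =>
    intro T hT
    obtain ⟨a, ha, hN2⟩ := hN T (by omega)
    have h1 := finrank_sup ha
    have h2 := ih (T ⊔ span k {a}) (by omega)
    have h3 := rank_bound (E := E) T a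
    have h6 := tri m
    simp only [Nat.add_sub_cancel]
    omega

theorem part_of {T : Submodule k V} (hlt : finrank k T < finrank k V)
    (hT3 : ∀ a, a ∉ T → finrank k (NN E T a) ≤ finrank k T + 2)
    (hne : ∀ a, a ∉ T → NN E T a ≠ ⊤) :
    ∃ P : Set (Submodule k V), (∀ K ∈ P, T ≤ K) ∧ (∀ K ∈ P, K ≠ ⊤) ∧ (∀ x, ∃ K ∈ P, x ∈ K) ∧
        (∀ K ∈ P, ∀ K' ∈ P, K ≠ K' → K ⊓ K' = T) ∧
        ∀ K ∈ P, ∀ x y : V, E x y → x ∉ T → x ∈ K → y ∈ K := by
  refine ⟨{K | ∃ a, a ∉ T ∧ K = NN E T a}, ?_, ?_, ?_, ?_, ?_⟩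
  · rintro _ ⟨a, -, rfl⟩
    exact le_NN T a
  · rintro _ ⟨a, ha, rfl⟩
    exact hne a ha
  · intro x
    by_cases hx : x ∈ T
    · obtain ⟨a, ha⟩ := exists_not_mem (T := T) hlt
      exact ⟨_, ⟨a, ha, rfl⟩, le_NN T a hx⟩
    · exact ⟨_, ⟨x, hx, rfl⟩, self_NN T x⟩
  · rintro _ ⟨a, ha, rfl⟩ _ ⟨b, hb, rfl⟩ hne
    refine le_antisymm ?_ (le_inf (le_NN T a) (le_NN T b))
    rintro x ⟨hxa, hxb⟩
    by_contra hx
    apply hne
    rw [← NN_eq hT3 ha hx hxa, ← NN_eq hT3 hb hx hxb]
  · rintro _ ⟨a, ha, rfl⟩ x y hE hx hxa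
    rw [← NN_eq hT3 ha hx hxa]
    intro β hβ
    exact hβ.1.2 x y hE

theorem lx20 (h : (finrank k V - 2) * (finrank k V - 3) / 2 < finrank k (Forms k E)) :
    ∃ T : Submodule k V, finrank k T + 2 ≤ finrank k V ∧
      ∃ P : Set (Submodule k V), (∀ K ∈ P, T ≤ K) ∧ (∀ K ∈ P, K ≠ ⊤) ∧ (∀ x, ∃ K ∈ P, x ∈ K) ∧
        (∀ K ∈ P, ∀ K' ∈ P, K ≠ K' → K ⊓ K' = T) ∧
        ∀ K ∈ P, ∀ x y : V, E x y → x ∉ T → x ∈ K → y ∈ K := by
  have hF : SS E (⊥ : Submodule k V) = Forms k E := by
    ext β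
    rw [mem_SS]
    constructor
    · exact fun h => h.1
    · refine fun h => ⟨h, fun t ht x => ?_⟩
      rw [Submodule.mem_bot] at ht
      rw [ht, map_zero, LinearMap.zero_apply]
  by_cases h0 : ∀ T : Submodule k V, finrank k T + 2 = finrank k V → finrank k (SS E T) = 0
  · by_cases hc : ∀ T : Submodule k V, finrank k T + 3 ≤ finrank k V → ∃ a, a ∉ T ∧
      finrank k T + 3 ≤ finrank k (NN E T a)
    · exfalso
      rcases Nat.lt_or_ge (finrank k V) 2 with hn | hn
      · have h1 := bound (E := E) (finrank k V) (⊥ : Submodule k V) (by rw [finrank_bot]; omega)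
        rw [hF] at h1
        have h2 : finrank k V * (finrank k V - 1) / 2 = 0 := by
          have h3 : finrank k V = 0 ∨ finrank k V = 1 := by omega
          rcases h3 with h3 | h3 <;> rw [h3]
        omega
      · obtain ⟨m, hm⟩ := Nat.exists_eq_add_of_le hn
        have h1 := bound3 h0 hc m (⊥ : Submodule k V) (by rw [finrank_bot]; omega)
        rw [hF] at h1
        rw [hm] at h
        have e1 : 2 + m - 2 = m := by omega
        have e2 : 2 + m - 3 = m - 1 := by omega
        rw [e1, e2] at h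
        omega
    · push Not at hc
      obtain ⟨T, hT, hT2⟩ := hc
      refine ⟨T, by omega, part_of (by omega) (fun a ha => ?_) (fun a ha htop => ?_)⟩
      · have := hT2 a ha
        omega
      · have := hT2 a ha
        rw [htop, finrank_top] at this
        omega
  · push Not at h0
    obtain ⟨T, hT, hT2⟩ := h0
    refine ⟨T, by omega, part_of (by omega) (fun a _ => ?_) (fun a ha htop => ?_)⟩
    · have := Submodule.finrank_le (NN E T a)
      omega
    · have h1 := finrank_sup ha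
      have h2 := bound (E := E) 1 (T ⊔ span k {a}) (by omega)
      have h3 := rank_bound (E := E) T a
      rw [htop, finrank_top] at h3
      simp only [Nat.sub_self, Nat.mul_zero, Nat.zero_div] at h2
      omega

end LX2

theorem lx2 : S_LX2 := fun p _ V _ _ _ E h => lx20 h

end Pool.Agent.P8H47.EC2
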