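import Mathlib
import Pool.Agent.N908.FR.Fld

/-! # Project EC2 (MP_600e55_nt): all minimal compatible subgroups split off together (statements)

Packages: AP (approximation theorem for finitely many valuation rings, imports Mathlib only) and LC, LX2 (linear algebra).
-/

set_option autoImplicit false

open Module Submodule

namespace Pool.Agent.P8H47.EC2

open Pool.Agent.N908.FR (Forms)

/-- the units of the ring `O O'` (the products `a b`, `a ∈ O`, `b ∈ O'`, form a valuation ring) -/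
def UU {F : Type} [Field F] (O O' : ValuationSubring F) : Subgroup Fˣ where
  carrier := {x | (∃ a ∈ O, ∃ b ∈ O', (x : F) = a * b) ∧
    ∃ a ∈ O, ∃ b ∈ O', ((x⁻¹ : Fˣ) : F) = a * b}
  mul_mem' := by
    rintro x y ⟨⟨a, ha, b, hb, e⟩, ⟨a', ha', b', hb', e'⟩⟩ ⟨⟨c, hc, d, hd, f⟩, ⟨c', hc', d', hd', f'⟩⟩
    refine ⟨⟨a * c, O.mul_mem _ _ ha hc, b * d, O'.mul_mem _ _ hb hd, ?_⟩,
      ⟨a' * c', O.mul_mem _ _ ha' hc', b' * d', O'.mul_mem _ _ hb' hd', ?_⟩⟩
    · rw [Units.val_mul, e, f]; ring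
    · rw [mul_inv, Units.val_mul, e', f']; ring
  one_mem' := ⟨⟨1, O.one_mem, 1, O'.one_mem, by simp⟩, ⟨1, O.one_mem, 1, O'.one_mem, by simp⟩⟩
  inv_mem' := by
    rintro x ⟨h1, h2⟩
    exact ⟨h2, by rw [inv_inv]; exact h1⟩

/-- CL (package AP, 200 lines in total with S_AP): one step of the approximation. `m_i` is the maximal ideal of `O i`.

Proof. (E) Let `g ∈ F*` and `O_j` finitely many valuation rings. For a suitable prime `n` the element
`w = 1 / (1 + g + ... + g^(n-1))` satisfies for all `j`: `w ∈ O_j`; if `g ∈ O_j` then `w - 1 ∈ g O_j`; if `g⁻¹ ∈ O_j` then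
`w ∈ g⁻¹ O_j`. The only problem is `1 + g + ... + g^(n-1) ∈ m_j` for `g` a unit of `O_j`; for each `j` this happens for at most one
prime `n`: in the residue field, if `1 + g + ... + g^(n-1) = 0` for two primes `n` then `g^n = 1` for both, so `g = 1`, so
`n = 0` for both, impossible.
(F) If `y ∈ O`, `y' ∈ O'`, both in `UU O O'`, there is `g ∈ F*` with `g ∈ y O`, `g⁻¹ ∈ y' O'`: `y⁻¹ = a b`, `y'⁻¹ = a' b'`,
`g = y a a' = a' / b`, `g⁻¹ = y' b' b`.
(EL) Let `r ∉ s`, `y_i ∈ O_i`, `y_r ∈ O_r`, `y_i, y_r ∈ UU(O_i, O_r)` for `i ∈ s`. There is `e` with `e ∈ y_i O_i` for `i ∈ s` and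
`e - 1 ∈ y_r O_r`: for `i ∈ s` take `g` from (F) and `e_i = 1 - w`, `w` from (E) for `insert r s`; `e_i ∈ y_i O_i`,
`e_i - 1 ∈ y_r O_r`, `e_i ∈ O_j` for `j ∈ s`; let `e` be the product of the `e_i`.
(CL) If `a ∈ O_r` take `e` for `y_i = n_i` if `a ∈ O_i`, `y_i = n_i / a` if not, and `y_r = n_r a`, and `c = 1 + (a - 1) e =
a (1 + (a - 1) (e - 1) / a)`. If `a⁻¹ ∈ O_r` take the inverse of the solution for `a⁻¹` (`1 + n_i O_i` is a group). -/
def S_CL : Prop := ∀ (F : Type) [Field F] (ι : Type) (O : ι → ValuationSubring F) (s : Finset ι) (r : ι) (n : ι → Fˣ)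
  (a : Fˣ), r ∉ s → (∀ i, i = r ∨ i ∈ s → (n i : F) ∈ O i ∧ (n i : F)⁻¹ ∉ O i) →
    (∀ i ∈ s, n i ∈ UU (O i) (O r) ∧ n r ∈ UU (O i) (O r) ∧ a ∈ UU (O i) (O r)) →
    ∃ c : Fˣ, (∀ i ∈ s, ∃ b ∈ O i, (c : F) = 1 + n i * b) ∧ ∃ b ∈ O r, (c : F) = a * (1 + n r * b)

/-- AP: for each `r ∈ s` take `c_r` from CL for `s \ {r}` and `a = a_r`; let `c` be the product of the `c_r`
(`UU (O i) (O j) = UU (O j) (O i)`) -/
def S_AP : Prop := ∀ (F : Type) [Field F] (ι : Type) (O : ι → ValuationSubring F) (s : Finset ι) (n a : ι → Fˣ),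
  (∀ i ∈ s, (n i : F) ∈ O i ∧ (n i : F)⁻¹ ∉ O i) →
    (∀ i ∈ s, ∀ j ∈ s, i ≠ j → n i ∈ UU (O i) (O j) ∧ a i ∈ UU (O i) (O j)) →
    ∃ c : Fˣ, ∀ i ∈ s, ∃ b ∈ O i, (c : F) = a i * (1 + n i * b)

/-- `V/T` has a partition into proper subspaces which respects the relation `E` -/
def PartAt {p : ℕ} {V : Type} [AddCommGroup V] [Module (ZMod p) V] (E : V → V → Prop)
    (T : Submodule (ZMod p) V) : Prop :=
  ∃ P : Set (Submodule (ZMod p) V), (∀ K ∈ P, T ≤ K) ∧ (∀ K ∈ P, K ≠ ⊤) ∧ (∀ x, ∃ K ∈ P, x ∈ K) ∧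
    (∀ K ∈ P, ∀ K' ∈ P, K ≠ K' → K ⊓ K' = T) ∧
    ∀ K ∈ P, ∀ x y : V, E x y → x ∉ T → x ∈ K → y ∈ K

/-- LX2 (modification of `P8H48/EC/Lin.lean`, `lx`): now codimension two is allowed and the bound is smaller by one.

Proof: as for LX. For `T` of codimension 2 with `S_T ≠ 0` the subspaces `T + <a>`, `a ∉ T`, are a partition as required. If
there is no such `T` of codimension 2, and in every codimension `>= 3` there is `a ∉ T` with `dim N_T(a) ≥ dim T + 3`, then
`dim S_T ≤ (m - 2) (m - 3) / 2` by induction on the codimension `m ≥ 2` of `T`. -/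
def S_LX2 : Prop := ∀ (p : ℕ) [Fact p.Prime] (V : Type) [AddCommGroup V] [Module (ZMod p) V]
  [FiniteDimensional (ZMod p) V] (E : V → V → Prop),
    (finrank (ZMod p) V - 2) * (finrank (ZMod p) V - 3) / 2 < finrank (ZMod p) (Forms (ZMod p) E) →
    ∃ T : Submodule (ZMod p) V, finrank (ZMod p) T + 2 ≤ finrank (ZMod p) V ∧ PartAt E T

/-- LC (150 lines): the extremal case. Let `D` be as in LB, `d = dim D`, with the maximal possible dimension of `S = Forms E`.
Then the restriction from `S` to the alternating forms on `D` is surjective, and `S` contains all alternating forms which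
vanish on `D × V`. Claim: `S` has a form `β` of rank 2 (that is, vanishing on `T × V` for a `T` of codimension 2) which does not
vanish on `D × D`; then `T` and the subspaces `T + <a>` are as required (`β x y = 0` for `E x y`, and `D ≤ T` is false).

Proof. (1) For `x ∈ V` there is `w ∈ D` with `β t (x + w) = 0` for all `β ∈ S`, `t ∈ D`: let `t_i` be a basis of `D`, and let
`β_ij ∈ S` (`i ≠ j`) have the restriction `t_i* ∧ t_j*` to `D`, `β_ji = - β_ij`. For `t ∈ D` there is `φ(t) ∈ D` with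
`β t (x + φ(t)) = 0` for all `β ∈ S`. For `k ≠ i, j`: `β_ij t_k x = - β_ij t_k φ(t_k) = 0`. For `i ≠ j` and `i' ≠ i, j`:
`β_ij t_i x = β_ij (t_i + t_i') x = - φ(t_i + t_i')_j = β_i'j (t_i + t_i') x = β_i'j t_i' x`. So `- w_j := β_ij t_i x` does not
depend on `i`; `w = Σ w_j t_j` is as claimed (the forms in `S` which vanish on `D × D` vanish on `D × V` by the hypothesis, and
the `β_ij` span the restrictions to `D`). So `V = D ⊕ C` with `β t c = 0` for all `β ∈ S`, `t ∈ D`, `c ∈ C`.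
(2) Let `β₁ ∈ S` have a restriction of rank 2 to `D`. The form which is `β₁` on `D` and `0` on `C` (and on `C × D`) is `β₁` minus a form
on `V/D`, hence in `S`, and of rank 2. -/
def S_LC : Prop := ∀ (p : ℕ) [Fact p.Prime] (V : Type) [AddCommGroup V] [Module (ZMod p) V]
  [FiniteDimensional (ZMod p) V] (E : V → V → Prop) (D : Submodule (ZMod p) V),
    (∀ t ∈ D, ∀ x : V, ∃ t' ∈ D, E (x + t') t) → 2 ≤ finrank (ZMod p) D →
    finrank (ZMod p) D * (finrank (ZMod p) D - 1) / 2 +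
        (finrank (ZMod p) V - finrank (ZMod p) D) * (finrank (ZMod p) V - finrank (ZMod p) D - 1) / 2
      ≤ finrank (ZMod p) (Forms (ZMod p) E) →
    ∃ T : Submodule (ZMod p) V, finrank (ZMod p) T + 2 ≤ finrank (ZMod p) V ∧ ¬ D ≤ T ∧ PartAt E T

end Pool.Agent.P8H47.EC2
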