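import Pool.Agent.P8H47.EC.A
import Pool.Agent.P8H47.EC2.Stm

/-! # Project EC2: data of a minimal compatible subgroup -/

set_option autoImplicit false

namespace Pool.Agent.P8H47.EC2

open Pool.Agent.Y920.EP (pwG)
open Pool.Agent.P8H47.EC

variable {F : Type} [Field F]

/-- a prime ideal `J ≠ m` of `O` with `T = (1 + y² O) F*^p` for all `y ∈ m \ J`, such that every class modulo `T` meets
`m \ J` -/
structure Dat (p : ℕ) (T : Subgroup Fˣ) (O : ValuationSubring F) (J : Set F) : Prop where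
  pi : PI O J
  pw : pwG F p ≤ T
  one_add : ∀ x : F, x ∈ O → x⁻¹ ∉ O → ∃ t ∈ T, (t : F) = 1 + x
  gen : ∀ y : Fˣ, (y : F) ∈ O → (y : F)⁻¹ ∉ O → (y : F) ∉ J → ∀ t ∈ T,
    ∃ b ∈ O, ∃ c : Fˣ, (t : F) = (1 + y * y * b) * c ^ p
  cls : ∀ x : Fˣ, ∃ z : Fˣ, x⁻¹ * z ∈ T ∧ (z : F) ∈ O ∧ (z : F)⁻¹ ∉ O ∧ (z : F) ∉ J

/-- `y² b` is in the maximal ideal if `y` is -/
theorem sq_max {O : ValuationSubring F} {y : Fˣ} (hy : (y : F) ∈ O) (hy' : (y : F)⁻¹ ∉ O) {b : F}
    (hb : b ∈ O) : (y : F) * y * b ∈ O ∧ ((y : F) * y * b = 0 ∨ ((y : F) * y * b)⁻¹ ∉ O) := by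
  refine ⟨O.mul_mem _ _ (O.mul_mem _ _ hy hy) hb, ?_⟩
  by_cases h0 : (y : F) * y * b = 0
  · exact Or.inl h0
  · right
    intro h1
    apply hy'
    have hb0 : b ≠ 0 := by rintro rfl; exact h0 (by simp)
    have h2 : (y : F)⁻¹ = y * b * ((y : F) * y * b)⁻¹ := by
      have := y.ne_zero
      field_simp
    rw [h2]
    exact O.mul_mem _ _ (O.mul_mem _ _ hy hb) h1

theorem mn {p : ℕ} (hp : p.Prime) (hpF : (p : F) ≠ 0) {T : Subgroup Fˣ}
    (hfin : (pwG F p).relIndex T ≠ 0) (hT : MinCp p T) :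
    ∃ (O : ValuationSubring F) (J : Set F), Dat p T O J := by
  obtain ⟨O, hO⟩ := hT.ex
  have hpO := hO.inv_mem
  have hOne := hO.one_add
  -- a prime ideal
  obtain ⟨J, hJ, hJ1, c₀, hc₀, hc₀', hc₀J, hcls⟩ : ∃ J : Set F, ∃ hJ : PI O J,
      (∀ T' : Subgroup Fˣ, pwG F p ≤ T' → T' < T → II O T' ⊆ J) ∧
      ∃ c₀ : F, c₀ ∈ O ∧ c₀⁻¹ ∉ O ∧ c₀ ∉ J ∧ ∀ x : Fˣ,
      ∃ u : Fˣ, (u : F) ∉ J ∧ ((u⁻¹ : Fˣ) : F) ∉ J ∧ x⁻¹ * u ∈ T := by
    by_cases hS : ∃ T' : Subgroup Fˣ, pwG F p ≤ T' ∧ T' < T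
    · -- choose the largest ideal
      have hfinS : {T' : Subgroup Fˣ | pwG F p ≤ T' ∧ T' < T}.Finite :=
        (finite_between hfin).subset (fun T' h => ⟨h.1, h.2.le⟩)
      obtain ⟨T', ⟨h1, h2⟩, hmax⟩ := hfinS.exists_maximalFor (fun T' => II O T') _ hS
      have hJ : PI O (II O T') := II_PI hpF hpO h1
      refine ⟨II O T', hJ, ?_, ?_⟩
      · intro T'' h3 h4
        by_contra hc
        exact hc (hmax ⟨h3, h4⟩ (II_total hc))
      · have hno := hT.min T' h1 h2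
        obtain ⟨c₀, hc₀, hc₀', hc₀J⟩ : ∃ c₀ : F, c₀ ∈ O ∧ c₀⁻¹ ∉ O ∧ c₀ ∉ II O T' := by
          by_contra hc
          push Not at hc
          apply hno
          refine ⟨O, hpO, ?_, ?_⟩
          · intro z hz hz'
            obtain ⟨s, hs, e⟩ := (hc z hz hz').2 1 O.one_mem
            exact ⟨s, hs, by rw [e, mul_one]⟩
          · intro h3
            apply hO.ne_top
            rw [eq_top_iff, ← h3]
            exact sup_le_sup_left h2.le _
        refine ⟨c₀, hc₀, hc₀', hc₀J, fun x => ?_⟩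
        have htop : (Loc O (II O T') hJ).unitGroup ⊔ T' = ⊤ := by
          by_contra hc
          apply hno
          refine ⟨Loc O (II O T') hJ, loc_le O _ hJ hpO, ?_, hc⟩
          intro z _ hz'
          obtain ⟨s, hs, e⟩ := (Loc_max hz').2 1 O.one_mem
          exact ⟨s, hs, by rw [e, mul_one]⟩
        have hx : x ∈ (Loc O (II O T') hJ).unitGroup ⊔ T' := by rw [htop]; trivial
        obtain ⟨u, hu, τ, hτ, e⟩ := Subgroup.mem_sup.1 hx
        have hu1 : (u : F) ∈ Loc O (II O T') hJ := by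
          rw [← ValuationSubring.valuation_le_one_iff]
          exact le_of_eq hu
        have hu2 : (u : F)⁻¹ ∈ Loc O (II O T') hJ := by
          rw [← ValuationSubring.valuation_le_one_iff, map_inv₀]
          rw [show (Loc O (II O T') hJ).valuation (u : F) = 1 from hu, inv_one]
        refine ⟨u, Loc_unit u.ne_zero hu2, ?_, ?_⟩
        · refine Loc_unit (O := O) (hJ := hJ) (u⁻¹).ne_zero ?_
          rw [Units.val_inv_eq_inv_val, inv_inv]
          exact hu1
        · rw [← e]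
          have : (u * τ)⁻¹ * u = τ⁻¹ := by
            rw [mul_inv_rev, mul_assoc, inv_mul_cancel, mul_one]
          rw [this]
          exact inv_mem (h2.le hτ)
    · -- the zero ideal
      refine ⟨{0}, ⟨?_, rfl, ?_, ?_, ?_⟩, ?_, ?_⟩
      · rintro z rfl; exact O.zero_mem
      · rintro z rfl b _; simp
      · exact one_ne_zero
      · intro a _ b _ h
        exact mul_eq_zero.1 h
      · intro T' h1 h2
        exact absurd ⟨T', h1, h2⟩ hS
      · obtain ⟨c, hc⟩ : ∃ c : Fˣ, c ∉ O.unitGroup := by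
          by_contra hc
          push Not at hc
          apply hO.ne_top
          rw [eq_top_iff]
          exact fun c _ => Subgroup.mem_sup_left (hc c)
        obtain ⟨c₀, h1, h2⟩ : ∃ c₀ : Fˣ, (c₀ : F) ∈ O ∧ (c₀ : F)⁻¹ ∉ O := by
          by_contra hn
          push Not at hn
          apply hc
          rcases O.mem_or_inv_mem (c : F) with h | h
          · exact Pool.Agent.R675.TP.mem_unitGroup_of h
              (by rw [Units.val_inv_eq_inv_val]; exact hn c h)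
          · refine Pool.Agent.R675.TP.mem_unitGroup_of ?_
              (by rw [Units.val_inv_eq_inv_val]; exact h)
            have := hn c⁻¹ (by rw [Units.val_inv_eq_inv_val]; exact h)
            rwa [Units.val_inv_eq_inv_val, inv_inv] at this
        exact ⟨c₀, h1, h2, c₀.ne_zero, fun x => ⟨x, x.ne_zero, (x⁻¹).ne_zero, by
          rw [inv_mul_cancel]; exact one_mem _⟩⟩
  refine ⟨O, J, hJ, hT.le, hOne, ?_, ?_⟩
  · intro y hy hy' hyJ t ht
    -- all classes of `T` are classes of `1 + y² b`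
    have hG : Gy O y hy hy' ⊔ pwG F p = T := by
      have hle : Gy O y hy hy' ⊔ pwG F p ≤ T := by
        refine sup_le ?_ hT.le
        rintro g ⟨b, hb, e⟩
        obtain ⟨h1, h2 | h2⟩ := sq_max hy hy' hb
        · rw [h2, add_zero] at e
          rw [Units.ext (e.trans Units.val_one.symm)]
          exact one_mem _
        · obtain ⟨s, hs, e'⟩ := hOne _ h1 h2
          rw [Units.ext (e.trans e'.symm)]
          exact hs
      by_contra hne
      have h1 := hJ1 _ (le_sup_right (a := Gy O y hy hy')) (lt_of_le_of_ne hle hne)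
      have h2 : (y : F) * y ∈ II O (Gy O y hy hy' ⊔ pwG F p) := by
        refine ⟨O.mul_mem _ _ hy hy, fun b hb => ?_⟩
        obtain ⟨h3, h4⟩ := sq_max hy hy' hb
        obtain ⟨g, hg, -, -⟩ := unit_one_add h3 h4
        exact ⟨g, Subgroup.mem_sup_left ⟨b, hb, hg⟩, hg⟩
      exact (hJ.prime _ hy _ hy (h1 h2)).elim hyJ hyJ
    rw [← hG] at ht
    obtain ⟨g, ⟨b, hb, eg⟩, d, ⟨c, rfl⟩, e2⟩ := Subgroup.mem_sup.1 ht
    refine ⟨b, hb, c, ?_⟩
    rw [← e2, Units.val_mul, eg]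
    rfl
  · intro x
    obtain ⟨u, hu, hu', hxu⟩ := hcls x
    obtain ⟨w, hy, hy', hyJ⟩ := exists_mult hJ hp.two_le hc₀ hc₀' hc₀J u hu hu'
    rw [Units.val_inv_eq_inv_val] at hy'
    refine ⟨u * w ^ p, ?_, hy, hy', hyJ⟩
    rw [← mul_assoc]
    exact mul_mem hxu (hT.le ⟨w, rfl⟩)

end Pool.Agent.P8H47.EC2
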