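import Mathlib

/-! # Project EC2: numerical lemmas -/

set_option autoImplicit false

namespace Pool.Agent.P8H47.EC2

theorem two_choose (k : ℕ) : 2 * (k * (k - 1) / 2) + k = k * k := by
  have h := Nat.even_mul_pred_self k
  rw [Nat.mul_div_cancel' h.two_dvd]
  rcases k with _ | k
  · rfl
  · simp; ring

/-- case `d ≥ 2` -/
theorem num1 {d f A Q s n : ℕ} (hn : n = d + f + A) (hd : 2 ≤ d) (hf : 2 ≤ f) (hQ : Q ≤ A * A)
    (hs : (n - 2) * (n - 3) / 2 < s) (hb : 2 * s + n ≤ d * d + f * f + Q) : A = 0 := by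
  obtain ⟨d, rfl⟩ := Nat.exists_eq_add_of_le hd
  obtain ⟨f, rfl⟩ := Nat.exists_eq_add_of_le hf
  have e1 : n - 2 = d + f + A + 2 := by omega
  have e2 : n - 3 = d + f + A + 2 - 1 := by omega
  rw [e1, e2] at hs
  have h1 := two_choose (d + f + A + 2)
  have h2 : (d + f + A + 2) * (d + f + A + 2 - 1) / 2 + 1 ≤ s := hs
  subst hn
  by_contra hA
  have hA1 : 1 ≤ A := Nat.one_le_iff_ne_zero.2 hA
  nlinarith [Nat.mul_le_mul hA1 hA1, Nat.zero_le (d * f), Nat.zero_le (d * A), Nat.zero_le (f * A)]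

/-- case `d ≥ 2`: the extremal value -/
theorem num2 {d f s n : ℕ} (hn : n = d + f) (hd : 2 ≤ d) (hf : 2 ≤ f)
    (hs : (n - 2) * (n - 3) / 2 < s) :
    d * (d - 1) / 2 + f * (f - 1) / 2 ≤ s := by
  have h1 := two_choose d
  have h2 := two_choose f
  obtain ⟨d', rfl⟩ := Nat.exists_eq_add_of_le hd
  obtain ⟨f', rfl⟩ := Nat.exists_eq_add_of_le hf
  have e1 : n - 2 = d' + f' + 2 := by omega
  have e2 : n - 3 = d' + f' + 2 - 1 := by omega
  rw [e1, e2] at hs
  have h3 := two_choose (d' + f' + 2)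
  have h4 : (d' + f' + 2) * (d' + f' + 2 - 1) / 2 + 1 ≤ s := hs
  nlinarith [Nat.zero_le (d' * f')]

/-- case `d ≤ 1`, `k ≥ 2`: `s` has the extremal value, `d = 0` and `Q = A²` -/
theorem num3 {d f A Q s n : ℕ} (hn : n = d + f + A) (hd : d ≤ 1) (hf : 2 ≤ f) (hk : 2 ≤ d + A)
    (hQ : Q ≤ A * A) (hs : (n - 2) * (n - 3) / 2 < s) (hb : 2 * s + n ≤ d * d + f * f + Q) :
    d = 0 ∧ Q = A * A ∧ s = (n - 2) * (n - 3) / 2 + 1 ∧ (f = 2 ∨ A = 2) := by
  obtain ⟨f', rfl⟩ := Nat.exists_eq_add_of_le hf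
  obtain ⟨m, hm⟩ := Nat.exists_eq_add_of_le hk
  have e1 : n - 2 = f' + m + 2 := by omega
  have e2 : n - 3 = f' + m + 2 - 1 := by omega
  rw [e1, e2] at hs ⊢
  have h3 := two_choose (f' + m + 2)
  have h4 : (f' + m + 2) * (f' + m + 2 - 1) / 2 + 1 ≤ s := hs
  generalize (f' + m + 2) * (f' + m + 2 - 1) / 2 = X at *
  have hd' : d = 0 ∨ d = 1 := by omega
  rcases hd' with rfl | rfl
  · have hA : A = m + 2 := by omega
    subst hA
    subst hn
    have hQ' : Q = (m + 2) * (m + 2) := by nlinarith [Nat.zero_le (m * f')]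
    subst hQ'
    have hmf : m * f' = 0 := by nlinarith [Nat.zero_le (m * f')]
    refine ⟨rfl, rfl, ?_, ?_⟩
    · nlinarith
    · rcases Nat.mul_eq_zero.1 hmf with h | h
      · right; omega
      · left; omega
  · exfalso
    have hA : A = m + 1 := by omega
    subst hA
    subst hn
    nlinarith [Nat.zero_le (m * f')]

/-- sums of squares -/
theorem sum_sq_le {ι : Type} (s : Finset ι) (f : ι → ℕ) :
    ∑ i ∈ s, f i * f i ≤ (∑ i ∈ s, f i) * ∑ i ∈ s, f i := by
  classical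
  induction s using Finset.induction_on with
  | empty => simp
  | insert a s ha ih =>
    rw [Finset.sum_insert ha, Finset.sum_insert ha]
    nlinarith [Nat.zero_le (f a * ∑ i ∈ s, f i)]

/-- equality for positive numbers: at most one index -/
theorem sum_sq_eq {ι : Type} (s : Finset ι) (f : ι → ℕ) (hf : ∀ i ∈ s, 1 ≤ f i)
    (h : ∑ i ∈ s, f i * f i = (∑ i ∈ s, f i) * ∑ i ∈ s, f i) (i j : ι) (hi : i ∈ s) (hj : j ∈ s) :
    i = j := by
  classical
  by_contra hij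
  have hj' : j ∈ s.erase i := Finset.mem_erase.2 ⟨fun e => hij e.symm, hj⟩
  rw [← Finset.add_sum_erase s _ hi, ← Finset.add_sum_erase s _ hi] at h
  have h1 := sum_sq_le (s.erase i) f
  have h2 : f j ≤ ∑ x ∈ s.erase i, f x := Finset.single_le_sum (fun _ _ => Nat.zero_le _) hj'
  have h3 := hf i hi
  have h4 := hf j hj
  nlinarith [Nat.mul_le_mul h3 (h4.trans h2)]

end Pool.Agent.P8H47.EC2
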