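import Pool.Agent.P8H47.EC2.Cnt
import Pool.Agent.P8H47.EC2.CardS
import Pool.Agent.P8H55.EC2.Ap

/-! # Project EC2: simultaneous splitting, assembly -/

set_option autoImplicit false

namespace Pool.Agent.P8H47.EC2

open Module Submodule Function
open Pool.Agent.Y920.EP
open Pool.Agent.P8H47.EC
open Pool.Agent.N908.FR (Forms Est IsSymbol)
open Pool.Agent.Results.MP_600e55_nt.SymbolPartitions

variable {p : ℕ} [Fact p.Prime] {F : Type} [Field F]

theorem dat_of_min (hpF : (p : F) ≠ 0) (hfin : (powers F p).index ≠ 0) {T : Subgroup Fˣ}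
    (hT : MinCp p T) : ∃ (O : ValuationSubring F) (J : Set F), Dat p T O J := by
  refine mn Fact.out hpF ?_ hT
  intro h0
  apply hfin
  have h1 := Subgroup.relIndex_mul_index hT.le
  rw [h0, zero_mul] at h1
  exact h1.symm

/-- the statements for a family of minimal subgroups -/
theorem sim (hpF : (p : F) ≠ 0) (hm : (-1 : Fˣ) ∈ powers F p) (hfin : (powers F p).index ≠ 0)
    {ι : Type} [Fintype ι] [Nonempty ι] (T : ι → Subgroup Fˣ) (hT : ∀ i, MinCp p (T i))
    (hinj : Injective T) :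
    (∀ x : ι → Fˣ, ∃ y : Fˣ, ∀ i, (x i)⁻¹ * y ∈ T i) ∧
    (∀ t ∈ ⨅ i, T i, ∀ x : Fˣ, ∃ z c : Fˣ, x⁻¹ * z ∈ ⨅ i, T i ∧ (1 : F) + z = t * c ^ p) ∧
    (∀ c : Fˣ → Fˣ → ZMod p, IsSymbol p F c →
      (∀ s ∈ ⨅ i, T i, ∀ t ∈ ⨅ i, T i, c s t = 0) →
      ∃! f : ι → Fˣ → Fˣ → ZMod p, (∀ i, IsSymbol p F (f i) ∧ ∀ t ∈ T i, ∀ x, f i t x = 0) ∧
        ∀ x y, c x y = ∑ i, f i x y) := by
  have hp0 : p ≠ 0 := (Fact.out : p.Prime).ne_zero
  choose O J h using fun i => dat_of_min hpF hfin (hT i)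
  have hnl : ∀ i j, i ≠ j → ¬ T i ≤ T j := fun i j hij hle =>
    (hT j).min (T i) (hT i).le (lt_of_le_of_ne hle fun e => hij (hinj e)) (hT i).ex
  refine ⟨fun x => ?_, fun t ht x => ?_, fun c hc h0 => ?_⟩
  · obtain ⟨z, hz⟩ := claim3 h Pool.Agent.P8H55.EC2.ap hnl Finset.univ x
    exact ⟨z, fun i => (hz i (Finset.mem_univ i)).1⟩
  · obtain ⟨z, c, hz, e⟩ := claim4 h Pool.Agent.P8H55.EC2.cl Pool.Agent.P8H55.EC2.ap hp0 hnl
      Finset.univ Finset.univ_nonempty t (fun i _ => Subgroup.mem_iInf.1 ht i) x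
    exact ⟨z, c, Subgroup.mem_iInf.2 fun i => hz i (Finset.mem_univ i), e⟩
  · exact decomp h Pool.Agent.P8H55.EC2.cl Pool.Agent.P8H55.EC2.ap hm hnl hc h0

/-- the bound for the number of symbols, for a given model of `F*/F*^p` -/
theorem sim_card (hpF : (p : F) ≠ 0) (hm : (-1 : Fˣ) ∈ powers F p) (hfin : (powers F p).index ≠ 0)
    {ι : Type} [Fintype ι] [Nonempty ι] (T : ι → Subgroup Fˣ) (hT : ∀ i, MinCp p (T i))
    (hinj : Injective T) {V : Type} [AddCommGroup V] [Module (ZMod p) V]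
    [FiniteDimensional (ZMod p) V] {q : Fˣ → V} (hq : ∀ a b, q (a * b) = q a + q b)
    (hs : Surjective q) (hk : ∀ a, q a = 0 ↔ a ∈ powers F p) (d : ℕ)
    (hd : (powers F p).relIndex (⨅ i, T i) = p ^ d) (m : ι → ℕ)
    (hmi : ∀ i, (T i).index = p ^ m i) :
    Nat.card {c : Fˣ → Fˣ → ZMod p // IsSymbol p F c} ≤
      p ^ (d * (d - 1) / 2 + ∑ i, m i * (m i - 1) / 2) := by
  have hp : p.Prime := Fact.out
  choose O J h using fun i => dat_of_min hpF hfin (hT i)
  have hnl : ∀ i j, i ≠ j → ¬ T i ≤ T j := fun i j hij hle =>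
    (hT j).min (T i) (hT i).le (lt_of_le_of_ne hle fun e => hij (hinj e)) (hT i).ex
  have h1 := forms_bound h hq hs hk Pool.Agent.P8H55.EC2.cl Pool.Agent.P8H55.EC2.ap hm hnl
  rw [card_symbols' hm hq hs hk]
  refine Nat.pow_le_pow_right hp.pos (h1.trans (le_of_eq ?_))
  have h2 : d = finrank (ZMod p) (sp p hq (⨅ i, T i)) := by
    have h3 := finrank_sp hq hs hk (T := ⨅ i, T i) (le_iInf fun i => (hT i).le)
    rw [hd] at h3
    exact Nat.pow_right_injective hp.two_le h3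
  have h4 : ∀ i, m i = finrank (ZMod p) V - finrank (ZMod p) (sp p hq (T i)) := by
    intro i
    have h5 := Subgroup.relIndex_mul_index (hT i).le
    have h6 : (pwG F p).relIndex (T i) = p ^ finrank (ZMod p) (sp p hq (T i)) :=
      finrank_sp hq hs hk (hT i).le
    have h7 : (pwG F p).index = p ^ finrank (ZMod p) V := by
      have h8 := finrank_sp hq hs hk (T := ⊤) le_top
      rw [Subgroup.relIndex_top_right] at h8
      have h9 : sp p hq ⊤ = ⊤ := by
        rw [eq_top_iff]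
        intro x _
        obtain ⟨a, rfl⟩ := hs x
        exact (mem_sp hq).2 ⟨a, trivial, rfl⟩
      rw [h9, finrank_top] at h8
      exact h8
    rw [h6, h7, hmi i, ← pow_add] at h5
    have h10 := Nat.pow_right_injective hp.two_le h5
    omega
  rw [← h2]
  congr 1
  exact Finset.sum_congr rfl fun i _ => by rw [← h4 i]

end Pool.Agent.P8H47.EC2
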