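import Pool.Agent.P8H47.EC2.Mn

/-! # Project EC2: simultaneous splitting -/

set_option autoImplicit false

namespace Pool.Agent.P8H47.EC2

open Pool.Agent.Y920.EP (pwG)
open Pool.Agent.P8H47.EC

variable {F : Type} [Field F]

theorem UU_left {O O' : ValuationSubring F} {u : Fˣ} (h : (u : F) ∈ O) (h' : ((u⁻¹ : Fˣ) : F) ∈ O) :
    u ∈ UU O O' :=
  ⟨⟨_, h, 1, O'.one_mem, by simp⟩, ⟨_, h', 1, O'.one_mem, by simp⟩⟩

theorem UU_right {O O' : ValuationSubring F} {u : Fˣ} (h : (u : F) ∈ O')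
    (h' : ((u⁻¹ : Fˣ) : F) ∈ O') : u ∈ UU O O' :=
  ⟨⟨1, O.one_mem, _, h, by simp⟩, ⟨1, O.one_mem, _, h', by simp⟩⟩

theorem UU_comm {O O' : ValuationSubring F} {u : Fˣ} (h : u ∈ UU O O') : u ∈ UU O' O := by
  obtain ⟨⟨a, ha, b, hb, e⟩, ⟨a', ha', b', hb', e'⟩⟩ := h
  exact ⟨⟨b, hb, a, ha, by rw [e, mul_comm]⟩, ⟨b', hb', a', ha', by rw [e', mul_comm]⟩⟩

theorem UU_pow {O O' : ValuationSubring F} {a : Fˣ} {p : ℕ} (hp : p ≠ 0) (h : a ^ p ∈ UU O O') :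
    a ∈ UU O O' := by
  obtain ⟨q, rfl⟩ : ∃ q, p = q + 1 := ⟨p - 1, by omega⟩
  have key : ∀ a : Fˣ, (∃ x ∈ O, ∃ y ∈ O', ((a ^ (q + 1) : Fˣ) : F) = x * y) →
      ∃ x ∈ O, ∃ y ∈ O', (a : F) = x * y := by
    rintro a ⟨x, hx, y, hy, e⟩
    rcases O.mem_or_inv_mem (a : F) with h | h
    · exact ⟨a, h, 1, O'.one_mem, by rw [mul_one]⟩
    · refine ⟨(a : F)⁻¹ ^ q * x, O.mul_mem _ _ (pow_mem h q) hx, y, hy, ?_⟩
      rw [mul_assoc, ← e, Units.val_pow_eq_pow_val, pow_succ, ← mul_assoc, ← mul_pow,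
        inv_mul_cancel₀ a.ne_zero, one_pow, one_mul]
  refine ⟨key a h.1, key a⁻¹ ?_⟩
  rw [inv_pow]
  exact h.2

variable {p : ℕ}

theorem sep {T T' : Subgroup Fˣ} {O O' : ValuationSubring F} {J : Set F} (h : Dat p T O J)
    (hpw : pwG F p ≤ T') (h' : ∀ x : F, x ∈ O' → x⁻¹ ∉ O' → ∃ t ∈ T', (t : F) = 1 + x)
    (hne : ¬ T ≤ T') {y : Fˣ} (hy : (y : F) ∈ O) (hy' : (y : F)⁻¹ ∉ O) (hyJ : (y : F) ∉ J) :
    y ∈ UU O O' := by
  refine ⟨⟨_, hy, 1, O'.one_mem, by simp⟩, ?_⟩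
  by_contra hc
  apply hne
  intro t ht
  obtain ⟨b, hb, c, e⟩ := h.gen y hy hy' hyJ t ht
  by_cases h0 : (y : F) * y * b = 0
  · rw [h0, add_zero, one_mul, ← Units.val_pow_eq_pow_val] at e
    rw [Units.ext e]
    exact hpw ⟨c, rfl⟩
  · have h1 : ((y : F) * y * b)⁻¹ ∉ O' := by
      intro h2
      apply hc
      refine ⟨y * b, O.mul_mem _ _ hy hb, _, h2, ?_⟩
      have hb0 : b ≠ 0 := right_ne_zero_of_mul h0
      have := y.ne_zero
      rw [Units.val_inv_eq_inv_val]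
      field_simp
    have h2 : (y : F) * y * b ∈ O' := (O'.mem_or_inv_mem _).resolve_right h1
    obtain ⟨s, hs, e'⟩ := h' _ h2 h1
    rw [← e', ← Units.val_pow_eq_pow_val, ← Units.val_mul] at e
    rw [Units.ext e]
    exact mul_mem hs (hpw ⟨c, rfl⟩)

/-- elements of `1 + m` -/
theorem one_add_mem {T : Subgroup Fˣ} {O : ValuationSubring F}
    (hO : ∀ x : F, x ∈ O → x⁻¹ ∉ O → ∃ t ∈ T, (t : F) = 1 + x) {y : Fˣ} (hy : (y : F) ∈ O)
    (hy' : (y : F)⁻¹ ∉ O) {b : F} (hb : b ∈ O) :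
    ∃ u : Fˣ, (u : F) = 1 + y * b ∧ (u : F) ∈ O ∧ ((u⁻¹ : Fˣ) : F) ∈ O ∧ u ∈ T := by
  have h1 : (y : F) * b ∈ O := O.mul_mem _ _ hy hb
  have h2 : (y : F) * b = 0 ∨ ((y : F) * b)⁻¹ ∉ O := by
    by_cases h0 : (y : F) * b = 0
    · exact Or.inl h0
    · right
      intro h3
      apply hy'
      have h4 : (y : F)⁻¹ = b * ((y : F) * b)⁻¹ := by
        have h5 : b ≠ 0 := right_ne_zero_of_mul h0
        have := y.ne_zero
        field_simp
      rw [h4]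
      exact O.mul_mem _ _ hb h3
  obtain ⟨u, hu, hu1, hu2⟩ := unit_one_add h1 h2
  refine ⟨u, hu, hu1, hu2, ?_⟩
  rcases h2 with h0 | h0
  · rw [h0, add_zero] at hu
    rw [Units.ext (hu.trans Units.val_one.symm)]
    exact one_mem _
  · obtain ⟨s, hs, e⟩ := hO _ h1 h0
    rw [Units.ext (hu.trans e.symm)]
    exact hs

section

variable {ι : Type} {T : ι → Subgroup Fˣ} {O : ι → ValuationSubring F} {J : ι → Set F}
  (h : ∀ i, Dat p (T i) (O i) (J i)) (hne : ∀ i j, i ≠ j → ¬ T i ≤ T j)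

include h in
/-- classes of the products of the groups `1 + y² O` -/
theorem claim1 (cl : S_CL) (hp : p ≠ 0) (hne : ∀ i j, i ≠ j → ¬ T i ≤ T j) (s : Finset ι)
    (y : ι → Fˣ)
    (hy : ∀ i ∈ s, (y i : F) ∈ O i ∧ (y i : F)⁻¹ ∉ O i ∧ (y i : F) ∉ J i) (g : Fˣ)
    (hg : ∀ i ∈ s, g ∈ T i) :
    ∃ c : Fˣ, ∀ i ∈ s, ∃ b ∈ O i, ((g * c ^ p : Fˣ) : F) = 1 + y i * y i * b := by
  classical
  induction s using Finset.induction_on with
  | empty => exact ⟨1, fun i hi => absurd hi (Finset.notMem_empty i)⟩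
  | insert r s hr ih =>
    obtain ⟨c₀, hc₀⟩ := ih (fun i hi => hy i (Finset.mem_insert_of_mem hi))
      (fun i hi => hg i (Finset.mem_insert_of_mem hi))
    have hyr := hy r (Finset.mem_insert_self r s)
    have hys : ∀ i ∈ s, (y i : F) ∈ O i ∧ (y i : F)⁻¹ ∉ O i ∧ (y i : F) ∉ J i :=
      fun i hi => hy i (Finset.mem_insert_of_mem hi)
    have hir : ∀ i ∈ s, i ≠ r := fun i hi e => hr (e ▸ hi)
    have hgr : g * c₀ ^ p ∈ T r :=
      mul_mem (hg r (Finset.mem_insert_self r s)) ((h r).pw ⟨c₀, rfl⟩)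
    obtain ⟨b, hb, a, e⟩ := (h r).gen (y r) hyr.1 hyr.2.1 hyr.2.2 _ hgr
    obtain ⟨u, hu, hu1, hu2, -⟩ := one_add_mem (h r).one_add hyr.1 hyr.2.1
      ((O r).mul_mem _ _ hyr.1 hb)
    have hu' : (u : F) = 1 + y r * y r * b := by rw [hu]; ring
    have e1 : g * c₀ ^ p = u * a ^ p := by
      apply Units.ext
      rw [e, Units.val_mul, hu', Units.val_pow_eq_pow_val]
    have hUy : ∀ i ∈ s, y i ∈ UU (O i) (O r) := fun i hi =>
      sep (h i) (h r).pw (h r).one_add (hne i r (hir i hi)) (hys i hi).1 (hys i hi).2.1 (hys i hi).2.2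
    have hUr : ∀ i ∈ s, y r ∈ UU (O i) (O r) := fun i hi =>
      UU_comm (sep (h r) (h i).pw (h i).one_add (hne r i (hir i hi).symm) hyr.1 hyr.2.1 hyr.2.2)
    have hUa : ∀ i ∈ s, a ∈ UU (O i) (O r) := by
      intro i hi
      apply UU_pow hp
      obtain ⟨b', hb', e'⟩ := hc₀ i hi
      obtain ⟨v, hv, hv1, hv2, -⟩ := one_add_mem (h i).one_add (hys i hi).1 (hys i hi).2.1
        ((O i).mul_mem _ _ (hys i hi).1 hb')
      have e2 : g * c₀ ^ p = v := by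
        apply Units.ext
        rw [e', hv]; ring
      have e3 : a ^ p = u⁻¹ * v := by
        rw [← e2, e1, inv_mul_cancel_left]
      rw [e3]
      exact mul_mem (inv_mem (UU_right hu1 hu2)) (UU_left hv1 hv2)
    have hn : ∀ i, i = r ∨ i ∈ s → ((y i * y i : Fˣ) : F) ∈ O i ∧ ((y i * y i : Fˣ) : F)⁻¹ ∉ O i := by
      intro i hi
      have hi' : i ∈ insert r s := Finset.mem_insert.2 hi
      have h1 := hy i hi'
      rw [Units.val_mul]
      refine ⟨(O i).mul_mem _ _ h1.1 h1.1, fun h2 => h1.2.1 ?_⟩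
      have h3 : (y i : F)⁻¹ = y i * ((y i : F) * y i)⁻¹ := by
        have := (y i).ne_zero
        field_simp
      rw [h3]
      exact (O i).mul_mem _ _ h1.1 h2
    obtain ⟨c, hc1, b₁, hb₁, hc2⟩ := cl F ι O s r (fun i => y i * y i) a hr hn
      (fun i hi => ⟨mul_mem (hUy i hi) (hUy i hi), mul_mem (hUr i hi) (hUr i hi), hUa i hi⟩)
    refine ⟨c₀ * c⁻¹, fun i hi => ?_⟩
    have e4 : g * (c₀ * c⁻¹) ^ p = g * c₀ ^ p * (c ^ p)⁻¹ := by
      rw [mul_pow, inv_pow, mul_assoc]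
    rw [e4]
    have h1 := hy i hi
    rcases Finset.mem_insert.1 hi with rfl | hi'
    · -- at `r`
      have h2 : c * a⁻¹ ∈ Gy (O i) (y i) h1.1 h1.2.1 := by
        refine ⟨b₁, hb₁, ?_⟩
        rw [Units.val_mul, hc2, Units.val_inv_eq_inv_val, Units.val_mul]
        have := a.ne_zero
        field_simp
      have h3 : u ∈ Gy (O i) (y i) h1.1 h1.2.1 := ⟨b, hb, hu'⟩
      have h4 : g * c₀ ^ p * (c ^ p)⁻¹ = u * ((c * a⁻¹) ^ p)⁻¹ := by
        rw [e1, mul_pow, mul_inv, inv_pow, inv_inv, mul_assoc, mul_comm (a ^ p)]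
      rw [h4]
      obtain ⟨b₂, hb₂, e5⟩ := mul_mem h3 (inv_mem (pow_mem h2 p))
      exact ⟨b₂, hb₂, e5⟩
    · obtain ⟨b', hb', e'⟩ := hc₀ i hi'
      obtain ⟨b'', hb'', e''⟩ := hc1 i hi'
      have h3 : g * c₀ ^ p ∈ Gy (O i) (y i) h1.1 h1.2.1 := ⟨b', hb', e'⟩
      have h2 : c ∈ Gy (O i) (y i) h1.1 h1.2.1 := by
        refine ⟨b'', hb'', ?_⟩
        rw [e'', Units.val_mul]
      obtain ⟨b₂, hb₂, e5⟩ := mul_mem h3 (inv_mem (pow_mem h2 p))
      exact ⟨b₂, hb₂, e5⟩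

include h in
/-- simultaneous choice of small elements in given classes -/
theorem claim3 (ap : S_AP) (hne : ∀ i j, i ≠ j → ¬ T i ≤ T j) (s : Finset ι) (x : ι → Fˣ) :
    ∃ z : Fˣ, ∀ i ∈ s, (x i)⁻¹ * z ∈ T i ∧ (z : F) ∈ O i ∧ (z : F)⁻¹ ∉ O i ∧ (z : F) ∉ J i := by
  choose a ha1 ha2 ha3 ha4 using fun i => (h i).cls (x i)
  have hU : ∀ i ∈ s, ∀ j ∈ s, i ≠ j → a i ∈ UU (O i) (O j) ∧ a i ∈ UU (O i) (O j) := by
    intro i _ j _ hij
    have := sep (h i) (h j).pw (h j).one_add (hne i j hij) (ha2 i) (ha3 i) (ha4 i)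
    exact ⟨this, this⟩
  obtain ⟨z, hz⟩ := ap F ι O s a a (fun i _ => ⟨ha2 i, ha3 i⟩) hU
  refine ⟨z, fun i hi => ?_⟩
  obtain ⟨b, hb, e⟩ := hz i hi
  obtain ⟨u, hu, hu1, hu2, huT⟩ := one_add_mem (h i).one_add (ha2 i) (ha3 i) hb
  have e1 : z = a i * u := by
    apply Units.ext
    rw [e, Units.val_mul, hu]
  have huu : (u : F) * ((u⁻¹ : Fˣ) : F) = 1 := by
    rw [← Units.val_mul, mul_inv_cancel, Units.val_one]
  refine ⟨?_, ?_, ?_, ?_⟩
  · rw [e1, ← mul_assoc]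
    exact mul_mem (ha1 i) huT
  · rw [e1, Units.val_mul]
    exact (O i).mul_mem _ _ (ha2 i) hu1
  · intro h1
    apply ha3 i
    have h2 : (a i : F)⁻¹ = u * (z : F)⁻¹ := by
      rw [e1, Units.val_mul]
      have := (a i).ne_zero
      have := u.ne_zero
      field_simp
    rw [h2]
    exact (O i).mul_mem _ _ hu1 h1
  · intro h1
    apply ha4 i
    have h2 : (a i : F) = z * ((u⁻¹ : Fˣ) : F) := by
      rw [e1, Units.val_mul, mul_assoc, huu, mul_one]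
    rw [h2]
    exact (h i).pi.mul _ h1 _ hu2

include h in
/-- property A for the intersection -/
theorem claim4 (cl : S_CL) (ap : S_AP) (hp : p ≠ 0) (hne : ∀ i j, i ≠ j → ¬ T i ≤ T j)
    (s : Finset ι) (hs : s.Nonempty) (t : Fˣ) (ht : ∀ i ∈ s, t ∈ T i) (x : Fˣ) :
    ∃ z c : Fˣ, (∀ i ∈ s, x⁻¹ * z ∈ T i) ∧ (1 : F) + z = t * c ^ p := by
  obtain ⟨y, hy⟩ := claim3 h ap hne s (fun _ => x)
  obtain ⟨i₀, hi₀⟩ := hs
  have hy0 := hy i₀ hi₀
  obtain ⟨v, hv, -, -, -⟩ := one_add_mem (h i₀).one_add hy0.2.1 hy0.2.2.1 (O i₀).one_mem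
  rw [mul_one] at hv
  have hvT : ∀ i ∈ s, v ∈ T i := by
    intro i hi
    obtain ⟨v', hv', -, -, hv''⟩ := one_add_mem (h i).one_add (hy i hi).2.1 (hy i hi).2.2.1
      (O i).one_mem
    rw [mul_one] at hv'
    rwa [Units.ext (hv.trans hv'.symm)]
  obtain ⟨c, hc⟩ := claim1 h cl hp hne s (fun _ => y) (fun i hi => (hy i hi).2) (t * v⁻¹)
    (fun i hi => mul_mem (ht i hi) (inv_mem (hvT i hi)))
  obtain ⟨b, -, e⟩ := hc i₀ hi₀
  have hb : ∀ i ∈ s, b ∈ O i := by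
    intro i hi
    obtain ⟨b', hb', e'⟩ := hc i hi
    have h1 : (y : F) * y * b = y * y * b' := by
      rw [e] at e'
      exact add_left_cancel e'
    have h2 : b = b' := mul_left_cancel₀ (mul_ne_zero y.ne_zero y.ne_zero) h1
    rwa [h2]
  -- `1 + y b (1 + y)`
  have hw : ∀ i ∈ s, ∃ u : Fˣ, (u : F) = 1 + y * (b * v) ∧ u ∈ T i := by
    intro i hi
    obtain ⟨u, hu, -, -, hu'⟩ := one_add_mem (h i).one_add (hy i hi).2.1 (hy i hi).2.2.1
      ((O i).mul_mem _ _ (hb i hi) (show (v : F) ∈ O i by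
        rw [hv]; exact (O i).add_mem _ _ (O i).one_mem (hy i hi).2.1))
    exact ⟨u, hu, hu'⟩
  obtain ⟨u, hu, -⟩ := hw i₀ hi₀
  refine ⟨y * u, c, fun i hi => ?_, ?_⟩
  · obtain ⟨u', hu', huT⟩ := hw i hi
    rw [← Units.ext (hu.trans hu'.symm)] at huT
    rw [← mul_assoc]
    exact mul_mem (hy i hi).1 huT
  · have e1 : (t : F) * c ^ p = (1 + y * y * b) * v := by
      rw [← e, Units.val_mul, Units.val_mul, Units.val_pow_eq_pow_val, Units.val_inv_eq_inv_val]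
      have := v.ne_zero
      field_simp
    rw [e1, Units.val_mul, hu, hv]
    ring

include h in
/-- a Steinberg pair -/
theorem claim5 (ap : S_AP) (hm : (-1 : Fˣ) ∈ pwG F p) (hne : ∀ i j, i ≠ j → ¬ T i ≤ T j)
    (s : Finset ι) (hs : s.Nonempty) (x y : Fˣ) (hxy : ∀ i ∈ s, x ∈ T i ∨ y ∈ T i) :
    ∃ z v : Fˣ, (v : F) = 1 + z ∧ ∀ i ∈ s, x⁻¹ * z ∈ T i ∧ y⁻¹ * v ∈ T i := by
  classical
  choose a ha1 ha2 ha3 ha4 using fun i => (h i).cls x
  choose d hd1 hd2 hd3 hd4 using fun i => (h i).cls y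
  -- `1 - d i`
  have hw : ∀ i, ∃ w : Fˣ, (w : F) = 1 + d i * (-1) ∧ (w : F) ∈ O i ∧ ((w⁻¹ : Fˣ) : F) ∈ O i ∧
      w ∈ T i := fun i => one_add_mem (h i).one_add (hd2 i) (hd3 i) ((O i).neg_mem _ (O i).one_mem)
  choose w hw1 hw2 hw3 hw4 using hw
  have hUa : ∀ i j, i ≠ j → a i ∈ UU (O i) (O j) := fun i j hij =>
    sep (h i) (h j).pw (h j).one_add (hne i j hij) (ha2 i) (ha3 i) (ha4 i)
  have hUd : ∀ i j, i ≠ j → d i ∈ UU (O i) (O j) := fun i j hij =>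
    sep (h i) (h j).pw (h j).one_add (hne i j hij) (hd2 i) (hd3 i) (hd4 i)
  have hm1 : ∀ i, (-1 : Fˣ) ∈ T i := fun i => (h i).pw hm
  have hdd : ∀ i, ((d i * d i : Fˣ) : F) ∈ O i ∧ ((d i * d i : Fˣ) : F)⁻¹ ∉ O i := by
    intro i
    rw [Units.val_mul]
    refine ⟨(O i).mul_mem _ _ (hd2 i) (hd2 i), fun h2 => hd3 i ?_⟩
    have h3 : (d i : F)⁻¹ = d i * ((d i : F) * d i)⁻¹ := by
      have := (d i).ne_zero
      field_simp
    rw [h3]
    exact (O i).mul_mem _ _ (hd2 i) h2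
  obtain ⟨z, hz⟩ := ap F ι O s (fun i => if y ∈ T i then a i else d i * d i)
    (fun i => if y ∈ T i then a i else -w i) (by
      intro i _
      split_ifs
      · exact ⟨ha2 i, ha3 i⟩
      · exact hdd i) (by
      intro i _ j _ hij
      split_ifs
      · exact ⟨hUa i j hij, hUa i j hij⟩
      · refine ⟨mul_mem (hUd i j hij) (hUd i j hij), UU_left ?_ ?_⟩
        · rw [Units.val_neg]
          exact (O i).neg_mem _ (hw2 i)
        · rw [inv_neg, Units.val_neg]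
          exact (O i).neg_mem _ (hw3 i))
  -- the value of `1 + z`
  have hv : ∀ i ∈ s, ∃ v : Fˣ, (v : F) = 1 + z ∧ x⁻¹ * z ∈ T i ∧ y⁻¹ * v ∈ T i := by
    intro i hi
    obtain ⟨b, hb, e⟩ := hz i hi
    split_ifs at e with hy
    · obtain ⟨u, hu, hu1, hu2, huT⟩ := one_add_mem (h i).one_add (ha2 i) (ha3 i) hb
      have e1 : z = a i * u := by
        apply Units.ext
        rw [e, Units.val_mul, hu]
      obtain ⟨v, hv, -, -, hvT⟩ := one_add_mem (h i).one_add (ha2 i) (ha3 i) hu1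
      refine ⟨v, by rw [hv, e1, Units.val_mul], ?_, mul_mem (inv_mem hy) hvT⟩
      rw [e1, ← mul_assoc]
      exact mul_mem (ha1 i) huT
    · have hx : x ∈ T i := (hxy i hi).resolve_right hy
      obtain ⟨u, hu, hu1, hu2, huT⟩ := one_add_mem (h i).one_add (hd2 i) (hd3 i)
        ((O i).mul_mem _ _ (hd2 i) hb)
      have e1 : z = -1 * w i * u := by
        apply Units.ext
        rw [e]
        simp only [Units.val_mul, Units.val_neg, Units.val_one, hu]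
        ring
      obtain ⟨v, hv, -, -, hvT⟩ := one_add_mem (h i).one_add (hd2 i) (hd3 i)
        ((O i).neg_mem _ ((O i).mul_mem _ _ (hw2 i) hb))
      refine ⟨d i * v, ?_, ?_, ?_⟩
      · rw [Units.val_mul, hv, e1, Units.val_mul, Units.val_mul, hu, hw1, Units.val_neg,
          Units.val_one]
        ring
      · rw [e1]
        exact mul_mem (inv_mem hx) (mul_mem (mul_mem (hm1 i) (hw4 i)) huT)
      · rw [← mul_assoc]
        exact mul_mem (hd1 i) hvT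
  obtain ⟨i₀, hi₀⟩ := hs
  obtain ⟨v, hv0, -⟩ := hv i₀ hi₀
  refine ⟨z, v, hv0, fun i hi => ?_⟩
  obtain ⟨v', hv', h1, h2⟩ := hv i hi
  rw [← Units.ext (hv0.trans hv'.symm)] at h2
  exact ⟨h1, h2⟩

end

end Pool.Agent.P8H47.EC2
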