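import Pool.Agent.P8H47.EC2.Ss

/-! # Project EC2: symbols -/

set_option autoImplicit false

namespace Pool.Agent.P8H47.EC2

open Pool.Agent.Y920.EP (pwG)
open Pool.Agent.P8H47.EC
open Pool.Agent.N908.FR (IsSymbol)
open Pool.Agent.Results.MP_600e55_nt.SymbolPartitions (powers)

section

variable {p : ℕ} [Fact p.Prime] {F : Type} [Field F] {c : Fˣ → Fˣ → ZMod p}

theorem self0 (hm : (-1 : Fˣ) ∈ powers F p) (h : IsSymbol p F c) (a : Fˣ) : c a a = 0 := by
  have h1 := h.neg_self a
  rw [show -a = (-1) * a by simp, h.mul_right, h.of_mem_right hm, zero_add] at h1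
  exact h1

theorem one_add0 (hm : (-1 : Fˣ) ∈ powers F p) (h : IsSymbol p F c) (a b : Fˣ)
    (hab : (b : F) = 1 + a) : c a b = 0 := by
  have h1 := h.steinberg (-a) b (by rw [hab]; simp)
  rw [show -a = (-1) * a by simp, h.mul_left, h.of_mem_left hm, zero_add] at h1
  exact h1

theorem anti0 (hm : (-1 : Fˣ) ∈ powers F p) (h : IsSymbol p F c) (a b : Fˣ) : c a b = - c b a := by
  have h2 := self0 hm h (a * b)
  rw [h.mul_left, h.mul_right, h.mul_right, self0 hm h a, self0 hm h b, zero_add,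
    add_zero] at h2
  exact eq_neg_of_add_eq_zero_left h2

end

section

variable {F : Type} [Field F] {p : ℕ} {ι : Type} {T : ι → Subgroup Fˣ}
  {O : ι → ValuationSubring F} {J : ι → Set F} (h : ∀ i, Dat p (T i) (O i) (J i))

include h in
/-- a Steinberg pair for one index -/
theorem claim6 (ap : S_AP) (hm : (-1 : Fˣ) ∈ pwG F p) (hne : ∀ i j, i ≠ j → ¬ T i ≤ T j)
    (s : Finset ι) (i : ι) (hi : i ∈ s) (x y : Fˣ) (hxy : (x : F) + y = 1) :
    x ∈ T i ∨ y ∈ T i ∨ x⁻¹ * y ∈ T i ∨ ∃ z v : Fˣ, (z : F) + v = 1 ∧ x⁻¹ * z ∈ T i ∧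
      y⁻¹ * v ∈ T i ∧ ∀ j ∈ s, j ≠ i → z ∈ T j ∧ v ∈ T j := by
  classical
  have hm1 : ∀ i, (-1 : Fˣ) ∈ T i := fun i => (h i).pw hm
  have hmul : ∀ (j : ι) (u : Fˣ), (u : F) ∈ O j → (u : F)⁻¹ ∉ O j → ∀ b ∈ O j,
      ∃ u' : Fˣ, (u' : F) = 1 + u * b ∧ (u' : F) ∈ O j ∧ ((u'⁻¹ : Fˣ) : F) ∈ O j ∧ u' ∈ T j :=
    fun j u h1 h2 b hb => one_add_mem (h j).one_add h1 h2 hb
  by_cases hx : (x : F) ∈ O i
  · by_cases hx' : (x : F)⁻¹ ∈ O i
    · have hy : (y : F) ∈ O i := by
        have : (y : F) = 1 - x := by rw [← hxy]; ring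
        rw [this]
        exact sub_mem (O i).one_mem hx
      by_cases hy' : (y : F)⁻¹ ∈ O i
      · right; right; right
        choose d hd1 hd2 hd3 hd4 using fun j => (h j).cls (1 : Fˣ)
        have hd0 : ∀ j, d j ∈ T j := fun j => by simpa using hd1 j
        have hUd : ∀ i j, i ≠ j → d i ∈ UU (O i) (O j) := fun i j hij =>
          sep (h i) (h j).pw (h j).one_add (hne i j hij) (hd2 i) (hd3 i) (hd4 i)
        obtain ⟨z, hz⟩ := ap F ι O s d (fun j => if j = i then x else d j)
          (fun j _ => ⟨hd2 j, hd3 j⟩) (by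
            intro j _ k _ hjk
            refine ⟨hUd j k hjk, ?_⟩
            split_ifs with hji
            · subst hji
              exact UU_left hx (by rw [Units.val_inv_eq_inv_val]; exact hx')
            · exact hUd j k hjk)
        obtain ⟨b, hb, e⟩ := hz i hi
        rw [if_pos rfl] at e
        obtain ⟨u, hu, -, -, huT⟩ := hmul i (d i) (hd2 i) (hd3 i) b hb
        obtain ⟨w, hw, -, -, hwT⟩ := hmul i (d i) (hd2 i) (hd3 i) (-(x * (y : F)⁻¹ * b))
          ((O i).neg_mem _ ((O i).mul_mem _ _ ((O i).mul_mem _ _ hx hy') hb))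
        have e1 : z = x * u := by
          apply Units.ext
          rw [e, Units.val_mul, hu]
        have e2 : (z : F) + (y * w : Fˣ) = 1 := by
          rw [e, Units.val_mul, hw]
          have := y.ne_zero
          field_simp
          linear_combination hxy
        refine ⟨z, y * w, e2, ?_, ?_, fun j hj hji => ?_⟩
        · rw [e1, inv_mul_cancel_left]
          exact huT
        · rw [inv_mul_cancel_left]
          exact hwT
        · obtain ⟨b', hb', e'⟩ := hz j hj
          rw [if_neg hji] at e'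
          obtain ⟨u', hu', hu1, -, huT'⟩ := hmul j (d j) (hd2 j) (hd3 j) b' hb'
          obtain ⟨w', hw', -, -, hwT'⟩ := hmul j (d j) (hd2 j) (hd3 j) (-(u' : F))
            ((O j).neg_mem _ hu1)
          have e3 : z = d j * u' := by
            apply Units.ext
            rw [e', Units.val_mul, hu']
          refine ⟨by rw [e3]; exact mul_mem (hd0 j) huT', ?_⟩
          have e4 : y * w = w' := by
            apply Units.ext
            rw [hw']
            have h5 : (z : F) = d j * u' := by rw [e3, Units.val_mul]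
            linear_combination e2 - h5
          rw [e4]
          exact hwT'
      · left
        obtain ⟨u, hu, -, -, huT⟩ := hmul i y hy hy' (-1) ((O i).neg_mem _ (O i).one_mem)
        have : x = u := by
          apply Units.ext
          rw [hu]
          linear_combination hxy
        rw [this]
        exact huT
    · right; left
      obtain ⟨u, hu, -, -, huT⟩ := hmul i x hx hx' (-1) ((O i).neg_mem _ (O i).one_mem)
      have : y = u := by
        apply Units.ext
        rw [hu]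
        linear_combination hxy
      rw [this]
      exact huT
  · right; right; left
    have hx' : (x : F)⁻¹ ∈ O i := ((O i).mem_or_inv_mem _).resolve_left hx
    obtain ⟨u, hu, -, -, huT⟩ := hmul i x⁻¹ (by rw [Units.val_inv_eq_inv_val]; exact hx')
      (by rw [Units.val_inv_eq_inv_val, inv_inv]; exact hx) (-1) ((O i).neg_mem _ (O i).one_mem)
    have : x⁻¹ * y = -1 * u := by
      apply Units.ext
      rw [Units.val_mul, Units.val_mul, hu, Units.val_inv_eq_inv_val, Units.val_neg, Units.val_one]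
      have := x.ne_zero
      field_simp
      linear_combination hxy
    rw [this]
    exact mul_mem (hm1 i) huT

end

section

variable {F : Type} [Field F] {p : ℕ} [Fact p.Prime] {ι : Type} [Fintype ι] [Nonempty ι]
  {T : ι → Subgroup Fˣ} {O : ι → ValuationSubring F} {J : ι → Set F}
  (h : ∀ i, Dat p (T i) (O i) (J i)) {c : Fˣ → Fˣ → ZMod p}

omit [Nonempty ι] [Fintype ι] in
theorem mem_D {t : Fˣ} : t ∈ ⨅ i, T i ↔ ∀ i, t ∈ T i := Subgroup.mem_iInf

include h in
/-- a symbol which vanishes on `D × D` vanishes on `D × F*` -/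
theorem vanish (cl : S_CL) (ap : S_AP) (hm : (-1 : Fˣ) ∈ powers F p)
    (hne : ∀ i j, i ≠ j → ¬ T i ≤ T j) (hc : IsSymbol p F c)
    (h0 : ∀ s ∈ ⨅ i, T i, ∀ t ∈ ⨅ i, T i, c s t = 0) (t : Fˣ) (ht : t ∈ ⨅ i, T i) (x : Fˣ) :
    c t x = 0 ∧ c x t = 0 := by
  have hp : p ≠ 0 := (Fact.out : p.Prime).ne_zero
  obtain ⟨z, d, hz, e⟩ := claim4 h cl ap hp hne Finset.univ Finset.univ_nonempty t
    (fun i _ => mem_D.1 ht i) x
  have h1 : c z (t * d ^ p) = 0 := by
    refine one_add0 hm hc z (t * d ^ p) ?_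
    rw [Units.val_mul, Units.val_pow_eq_pow_val, e]
  rw [hc.mul_right, hc.of_mem_right (show d ^ p ∈ powers F p from ⟨d, rfl⟩), add_zero] at h1
  have h4 := h0 (x⁻¹ * z) (mem_D.2 fun i => hz i (Finset.mem_univ i)) t ht
  rw [hc.mul_left, hc.inv_left, h1, add_zero, neg_eq_zero] at h4
  exact ⟨by rw [anti0 hm hc, h4, neg_zero], h4⟩

omit [Fintype ι] [Nonempty ι] in
theorem congr0 (hc : IsSymbol p F c) {D : Subgroup Fˣ}
    (hD : ∀ t ∈ D, ∀ x : Fˣ, c t x = 0 ∧ c x t = 0) {a a' b b' : Fˣ} (ha : a⁻¹ * a' ∈ D)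
    (hb : b⁻¹ * b' ∈ D) : c a b = c a' b' := by
  have h1 : c a' b' = c (a * (a⁻¹ * a')) (b * (b⁻¹ * b')) := by
    rw [mul_inv_cancel_left, mul_inv_cancel_left]
  rw [h1, hc.mul_left, hc.mul_right, (hD _ ha _).1, (hD _ hb a).2, add_zero, add_zero]

include h in
/-- the decomposition of a symbol which vanishes on `D × D` -/
theorem decomp (cl : S_CL) (ap : S_AP) (hm : (-1 : Fˣ) ∈ powers F p)
    (hne : ∀ i j, i ≠ j → ¬ T i ≤ T j) (hc : IsSymbol p F c)
    (h0 : ∀ s ∈ ⨅ i, T i, ∀ t ∈ ⨅ i, T i, c s t = 0) :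
    ∃! f : ι → Fˣ → Fˣ → ZMod p, (∀ i, IsSymbol p F (f i) ∧ ∀ t ∈ T i, ∀ x, f i t x = 0) ∧
      ∀ x y, c x y = ∑ i, f i x y := by
  classical
  have hD := vanish h cl ap hm hne hc h0
  -- the components
  have he : ∀ (i : ι) (x : Fˣ), ∃ z : Fˣ, x⁻¹ * z ∈ T i ∧ ∀ j, j ≠ i → z ∈ T j := by
    intro i x
    obtain ⟨z, hz⟩ := claim3 h ap hne Finset.univ (fun j => if j = i then x else 1)
    refine ⟨z, ?_, fun j hj => ?_⟩
    · have := (hz i (Finset.mem_univ i)).1
      rwa [if_pos rfl] at this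
    · have := (hz j (Finset.mem_univ j)).1
      rw [if_neg hj] at this
      simpa using this
  choose e he1 he2 using he
  have hT : ∀ i x, x ∈ T i → e i x ∈ ⨅ i, T i := by
    intro i x hx
    rw [mem_D]
    intro j
    by_cases hj : j = i
    · subst hj
      have := mul_mem hx (he1 j x)
      rwa [mul_inv_cancel_left] at this
    · exact he2 i x j hj
  have hcomp : ∀ i x z, x⁻¹ * z ∈ T i → (∀ j, j ≠ i → z ∈ T j) → (e i x)⁻¹ * z ∈ ⨅ i, T i := by
    intro i x z h1 h2
    rw [mem_D]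
    intro j
    by_cases hj : j = i
    · subst hj
      have h3 := mul_mem (inv_mem (he1 j x)) h1
      have e3 : (x⁻¹ * e j x)⁻¹ * (x⁻¹ * z) = (e j x)⁻¹ * z := by
        rw [mul_inv_rev, inv_inv, mul_assoc, mul_inv_cancel_left]
      rwa [e3] at h3
    · exact mul_mem (inv_mem (he2 i x j hj)) (h2 j hj)
  have hemul : ∀ i x y, (e i (x * y))⁻¹ * (e i x * e i y) ∈ ⨅ i, T i := by
    intro i x y
    refine hcomp i (x * y) _ ?_ (fun j hj => mul_mem (he2 i x j hj) (he2 i y j hj))
    have e3 : (x * y)⁻¹ * (e i x * e i y) = x⁻¹ * e i x * (y⁻¹ * e i y) := by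
      rw [mul_inv]
      exact mul_mul_mul_comm _ _ _ _
    rw [e3]
    exact mul_mem (he1 i x) (he1 i y)
  have hone : ∀ a : Fˣ, a⁻¹ * a ∈ ⨅ i, T i := fun a => by
    rw [inv_mul_cancel]; exact one_mem _
  -- off-diagonal values
  have hoff : ∀ i j, i ≠ j → ∀ x y, c (e i x) (e j y) = 0 := by
    intro i j hij x y
    obtain ⟨z, v, hv, hzv⟩ := claim5 h ap hm hne Finset.univ Finset.univ_nonempty (e i x) (e j y)
      (by
        intro k _
        by_cases hk : k = i
        · right
          exact he2 j y k (fun h => hij (hk.symm.trans h))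
        · left
          exact he2 i x k hk)
    rw [congr0 hc hD (mem_D.2 fun k => (hzv k (Finset.mem_univ k)).1)
      (mem_D.2 fun k => (hzv k (Finset.mem_univ k)).2)]
    exact one_add0 hm hc z v hv
  -- the product of the components
  have hprod : ∀ x, x⁻¹ * ∏ i, e i x ∈ ⨅ i, T i := by
    intro x
    rw [mem_D]
    intro j
    rw [← Finset.mul_prod_erase Finset.univ (fun i => e i x) (Finset.mem_univ j), ← mul_assoc]
    exact mul_mem (he1 j x) (Subgroup.prod_mem _ fun i hi => he2 i x j (Finset.ne_of_mem_erase hi).symm)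
  have hsumL : ∀ (s : Finset ι) (g : ι → Fˣ) (y : Fˣ), c (∏ i ∈ s, g i) y = ∑ i ∈ s, c (g i) y := by
    intro s g y
    induction s using Finset.induction_on with
    | empty => rw [Finset.prod_empty, Finset.sum_empty, hc.one_left]
    | insert a s ha ih => rw [Finset.prod_insert ha, Finset.sum_insert ha, hc.mul_left, ih]
  have hsumR : ∀ (s : Finset ι) (g : ι → Fˣ) (y : Fˣ), c y (∏ i ∈ s, g i) = ∑ i ∈ s, c y (g i) := by
    intro s g y
    induction s using Finset.induction_on with
    | empty => rw [Finset.prod_empty, Finset.sum_empty, hc.one_right]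
    | insert a s ha ih => rw [Finset.prod_insert ha, Finset.sum_insert ha, hc.mul_right, ih]
  have hsum : ∀ x y, c x y = ∑ i, c (e i x) (e i y) := by
    intro x y
    rw [congr0 hc hD (hprod x) (hprod y), hsumL]
    refine Finset.sum_congr rfl fun i _ => ?_
    rw [hsumR, Finset.sum_eq_single i]
    · intro j _ hj
      exact hoff i j hj.symm x y
    · intro hi
      exact absurd (Finset.mem_univ i) hi
  refine ⟨fun i x y => c (e i x) (e i y), ⟨fun i => ⟨⟨?_, ?_, ?_⟩, ?_⟩, hsum⟩, ?_⟩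
  · intro a b x
    rw [← hc.mul_left]
    exact congr0 hc hD (hemul i a b) (hone _)
  · intro x a b
    rw [← hc.mul_right]
    exact congr0 hc hD (hone _) (hemul i a b)
  · intro x y hxy
    change c (e i x) (e i y) = 0
    rcases claim6 h ap hm hne Finset.univ i (Finset.mem_univ i) x y hxy with
      h1 | h1 | h1 | ⟨z, v, h1, h2, h3, h4⟩
    · exact (hD _ (hT i x h1) _).1
    · exact (hD _ (hT i y h1) _).2
    · have h2 : (e i y)⁻¹ * e i x ∈ ⨅ i, T i := by
        refine hcomp i y (e i x) ?_ (he2 i x)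
        have h3 := mul_mem (inv_mem h1) (he1 i x)
        have e3 : (x⁻¹ * y)⁻¹ * (x⁻¹ * e i x) = y⁻¹ * e i x := by
          rw [mul_inv_rev, inv_inv, mul_assoc, mul_inv_cancel_left]
        rwa [e3] at h3
      rw [congr0 hc hD (hone (e i x)) h2]
      exact self0 hm hc _
    · have h5 := hcomp i x z h2 (fun j hj => (h4 j (Finset.mem_univ j) hj).1)
      have h6 := hcomp i y v h3 (fun j hj => (h4 j (Finset.mem_univ j) hj).2)
      rw [congr0 hc hD h5 h6]
      exact hc.steinberg z v h1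
  · intro t ht x
    exact (hD _ (hT i t ht) _).1
  · rintro g ⟨hg1, hg2⟩
    funext i x y
    have hgR : ∀ j, ∀ t ∈ T j, ∀ x, g j x t = 0 := by
      intro j t ht x
      rw [anti0 hm (hg1 j).1, (hg1 j).2 t ht x, neg_zero]
    have h1 : c (e i x) (e i y) = g i (e i x) (e i y) := by
      rw [hg2, Finset.sum_eq_single i]
      · intro j _ hj
        exact (hg1 j).2 _ (he2 i x j hj) _
      · intro hi
        exact absurd (Finset.mem_univ i) hi
    rw [h1]
    exact congr0 (hg1 i).1 (D := T i) (fun t ht x => ⟨(hg1 i).2 t ht x, hgR i t ht x⟩)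
      (he1 i x) (he1 i y)

end

end Pool.Agent.P8H47.EC2
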