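import Pool.Agent.P8H47.EC2.Cnt
import Pool.Agent.P8H47.EC2.Num
import Pool.Agent.P8H47.EC2.Lx2
import Pool.Agent.P8H47.EC.Co
import Pool.Agent.P8H55.EC2.Ap
import Pool.Agent.P8H55.EC2.Lc

/-! # Project EC2: fields with many symbols -/

set_option autoImplicit false

namespace Pool.Agent.P8H47.EC2

open Module Submodule Function
open Pool.Agent.Y920.EP
open Pool.Agent.R675.TP
open Pool.Agent.P8H47.EC
open Pool.Agent.N908.FR (Forms Est IsSymbol sg mem_sg relIndex_sg card_symbols exists_form)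
open Pool.Agent.Results.MP_600e55_nt.SymbolPartitions

/-- the minimal compatible subgroups -/
abbrev MinT (p : ℕ) (F : Type) [Field F] : Type := {T : Subgroup Fˣ // MinCp p T}

section

variable {p : ℕ} [Fact p.Prime] {F : Type} [Field F]

omit [Fact p.Prime] in
theorem finite_above (hfin : (powers F p).index ≠ 0) : {T : Subgroup Fˣ | pwG F p ≤ T}.Finite := by
  have h := finite_between (U := pwG F p) (T := (⊤ : Subgroup Fˣ)) (by
    rw [Subgroup.relIndex_top_right]
    exact hfin)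
  exact h.subset fun T hT => ⟨hT, le_top⟩

omit [Fact p.Prime] in
theorem finite_MinT (hfin : (powers F p).index ≠ 0) : Finite (MinT p F) := by
  have h : {T : Subgroup Fˣ | MinCp p T}.Finite :=
    (finite_above hfin).subset fun T hT => hT.le
  exact h.to_subtype

omit [Fact p.Prime] in
theorem not_le_of_ne {T T' : Subgroup Fˣ} (h : MinCp p T) (h' : MinCp p T') (hne : T ≠ T') :
    ¬ T ≤ T' := fun hle => h'.min T h.le (lt_of_le_of_ne hle hne) h.ex

omit [Fact p.Prime] in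
theorem exists_min (hfin : (powers F p).index ≠ 0) {T : Subgroup Fˣ} (hT : pwG F p ≤ T)
    (hO : ∃ O : ValuationSubring F, Cp p T O) : ∃ T' : Subgroup Fˣ, MinCp p T' ∧ T' ≤ T := by
  have hfinS : {T' : Subgroup Fˣ | (pwG F p ≤ T' ∧ T' ≤ T) ∧
      ∃ O : ValuationSubring F, Cp p T' O}.Finite :=
    (finite_above hfin).subset (fun T' h => h.1.1)
  obtain ⟨T', h1, hmin⟩ := hfinS.exists_minimal ⟨T, ⟨⟨hT, le_rfl⟩, hO⟩⟩
  obtain ⟨⟨h1, h2⟩, h3⟩ := h1
  refine ⟨T', ⟨h1, h3, fun T'' h4 h5 h6 => ?_⟩, h2⟩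
  exact absurd (hmin ⟨⟨h4, h5.le.trans h2⟩, h6⟩ h5.le) (not_le_of_gt h5)

variable {V : Type} [AddCommGroup V] [Module (ZMod p) V] [FiniteDimensional (ZMod p) V]
  {q : Fˣ → V} (hq : ∀ a b, q (a * b) = q a + q b) (hs : Surjective q)
  (hk : ∀ a, q a = 0 ↔ a ∈ powers F p)

include hs in
theorem sp_sg (K : Submodule (ZMod p) V) : sp p hq (sg hq K) = K := by
  ext x
  rw [mem_sp]
  constructor
  · rintro ⟨t, ht, rfl⟩; exact ht
  · intro hx
    obtain ⟨a, rfl⟩ := hs x
    exact ⟨a, hx, rfl⟩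

include hs hk in
/-- a compatible subgroup from a partition -/
theorem ofPart (co : S_CO) (hp2 : p ≠ 2) (hζ : ∃ ζ : F, IsPrimitiveRoot ζ p)
    (hfin : (powers F p).index ≠ 0) {T : Submodule (ZMod p) V}
    (hT : finrank (ZMod p) T + 2 ≤ finrank (ZMod p) V) (hP : PartAt (Est q) T) :
    ∃ T' : Subgroup Fˣ, MinCp p T' ∧ T' ≤ sg hq T := by
  obtain ⟨P, h1, h2, h3, h4, h5⟩ := hP
  have hle : ∀ K : Submodule (ZMod p) V, pwG F p ≤ sg hq K := fun K a ha => by
    rw [mem_sg, (hk a).2 ha]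
    exact zero_mem _
  refine exists_min hfin (hle T) ?_
  refine t_PT co F p Fact.out hp2 hζ (sg hq T) (hle T) hfin ?_ (sg hq '' P) ?_ ?_
  · intro x hx
    have hK : T ⊔ span (ZMod p) {q x} = ⊤ := by
      rw [eq_top_iff]
      rintro y -
      obtain ⟨a, rfl⟩ := hs y
      rw [← mem_sg hq]
      have h6 : Subgroup.zpowers x ⊔ sg hq T ≤ sg hq (T ⊔ span (ZMod p) {q x}) := by
        refine sup_le ?_ ?_
        · rw [Subgroup.zpowers_le, mem_sg]
          exact mem_sup_right (mem_span_singleton_self _)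
        · intro b hb
          rw [mem_sg] at hb ⊢
          exact mem_sup_left hb
      apply h6
      rw [hx]
      trivial
    have h7 := finrank_add_le_finrank_add_finrank T (span (ZMod p) {q x})
    rw [hK, finrank_top] at h7
    have h8 := finrank_span_le_card (R := ZMod p) ({q x} : Set V)
    rw [Set.toFinset_singleton, Finset.card_singleton] at h8
    omega
  · refine ⟨?_, ?_, ?_, ?_⟩
    · rintro _ ⟨K, hK, rfl⟩ a ha
      rw [mem_sg] at ha ⊢
      exact h1 K hK ha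
    · rintro _ ⟨K, hK, rfl⟩ h0
      refine h2 K hK (eq_top_iff.2 fun x _ => ?_)
      obtain ⟨a, rfl⟩ := hs x
      rw [← mem_sg hq, h0]
      exact Subgroup.mem_top _
    · intro a
      obtain ⟨K, hK, h⟩ := h3 (q a)
      exact ⟨_, ⟨K, hK, rfl⟩, h⟩
    · rintro _ ⟨K, hK, rfl⟩ _ ⟨K', hK', rfl⟩ hne
      have h6 := h4 K hK K' hK' (fun h => hne (by rw [h]))
      ext a
      rw [Subgroup.mem_inf, mem_sg, mem_sg, mem_sg, ← h6, Submodule.mem_inf]
  · rintro x v hx hv _ ⟨K, hK, rfl⟩ hxK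
    exact h5 K hK (q x) (q v) ⟨x, v, hv, rfl, rfl⟩ hx hxK

include hs hk in
theorem index_eq {T : Subgroup Fˣ} (hT : pwG F p ≤ T) :
    T.index = p ^ (finrank (ZMod p) V - finrank (ZMod p) (sp p hq T)) := by
  have hp : p.Prime := Fact.out
  have h1 := Subgroup.relIndex_mul_index hT
  have h2 : (pwG F p).relIndex T = p ^ finrank (ZMod p) (sp p hq T) := finrank_sp hq hs hk hT
  have h3 : (pwG F p).index = p ^ finrank (ZMod p) V := by
    have h4 := finrank_sp hq hs hk (T := ⊤) le_top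
    rw [Subgroup.relIndex_top_right] at h4
    have h5 : sp p hq ⊤ = ⊤ := by
      rw [eq_top_iff]
      intro x _
      obtain ⟨a, rfl⟩ := hs x
      exact (mem_sp hq).2 ⟨a, trivial, rfl⟩
    rw [h5, finrank_top] at h4
    exact h4
  have hle := Submodule.finrank_le (sp p hq T)
  rw [h2, h3] at h1
  refine Nat.eq_of_mul_eq_mul_left (pow_pos hp.pos (finrank (ZMod p) (sp p hq T))) ?_
  rw [h1, ← pow_add]
  congr 1
  omega

end

section

variable {p : ℕ} [Fact p.Prime] {F : Type} [Field F]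
  {V : Type} [AddCommGroup V] [Module (ZMod p) V] [FiniteDimensional (ZMod p) V]
  {q : Fˣ → V} (hq : ∀ a b, q (a * b) = q a + q b) (hs : Surjective q)
  (hk : ∀ a, q a = 0 ↔ a ∈ powers F p)

include hs hk in
/-- the numerical facts on the family of the minimal compatible subgroups -/
theorem family (hp2 : p ≠ 2) (hζ : ∃ ζ : F, IsPrimitiveRoot ζ p) (hfin : (powers F p).index ≠ 0)
    [Fintype (MinT p F)] (a : MinT p F) :
    2 * finrank (ZMod p) (Forms (ZMod p) (Est q)) + finrank (ZMod p) V ≤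
      finrank (ZMod p) (sp p hq (⨅ T : MinT p F, T.1)) *
        finrank (ZMod p) (sp p hq (⨅ T : MinT p F, T.1)) +
      ∑ T : MinT p F, (finrank (ZMod p) V - finrank (ZMod p) (sp p hq T.1)) *
        (finrank (ZMod p) V - finrank (ZMod p) (sp p hq T.1)) ∧
    finrank (ZMod p) V = finrank (ZMod p) (sp p hq (⨅ T : MinT p F, T.1)) +
      ∑ T : MinT p F, (finrank (ZMod p) V - finrank (ZMod p) (sp p hq T.1)) ∧
    ∀ T : MinT p F, 1 ≤ finrank (ZMod p) V - finrank (ZMod p) (sp p hq T.1) := by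
  have hp : p.Prime := Fact.out
  have hne : Nonempty (MinT p F) := ⟨a⟩
  have hm : (-1 : Fˣ) ∈ powers F p := Pool.Agent.N908.FR.neg_one_mem hp2
  have hpw : ∀ T : MinT p F, pwG F p ≤ T.1 := fun T => T.2.le
  have hD : pwG F p ≤ ⨅ T : MinT p F, T.1 := le_iInf hpw
  choose O J h using fun T : MinT p F => mn hp (p_ne hζ) (relIndex_ne hq hs hk T.2.le) T.2
  have hnl : ∀ T T' : MinT p F, T ≠ T' → ¬ T.1 ≤ T'.1 := fun T T' hTT =>
    not_le_of_ne T.2 T'.2 fun e => hTT (Subtype.ext e)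
  have h1 := forms_bound h hq hs hk Pool.Agent.P8H55.EC2.cl Pool.Agent.P8H55.EC2.ap hm hnl
  have h2 := index_inf h Pool.Agent.P8H55.EC2.ap hnl
  rw [index_eq hq hs hk hD] at h2
  have h3 : ∏ T : MinT p F, (T.1).index =
      p ^ ∑ T : MinT p F, (finrank (ZMod p) V - finrank (ZMod p) (sp p hq T.1)) := by
    rw [← Finset.prod_pow_eq_pow_sum]
    exact Finset.prod_congr rfl fun T _ => index_eq hq hs hk T.2.le
  rw [h3] at h2
  have h4 := Nat.pow_right_injective hp.two_le h2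
  have h5 := Submodule.finrank_le (sp p hq (⨅ T : MinT p F, T.1))
  refine ⟨?_, by omega, ?_⟩
  · have h6 := two_choose (finrank (ZMod p) (sp p hq (⨅ T : MinT p F, T.1)))
    have h7 : ∑ T : MinT p F, (finrank (ZMod p) V - finrank (ZMod p) (sp p hq T.1)) *
        (finrank (ZMod p) V - finrank (ZMod p) (sp p hq T.1)) =
        2 * (∑ T : MinT p F, (finrank (ZMod p) V - finrank (ZMod p) (sp p hq T.1)) *
          (finrank (ZMod p) V - finrank (ZMod p) (sp p hq T.1) - 1) / 2) +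
        ∑ T : MinT p F, (finrank (ZMod p) V - finrank (ZMod p) (sp p hq T.1)) := by
      rw [Finset.mul_sum, ← Finset.sum_add_distrib]
      exact Finset.sum_congr rfl fun T _ => (two_choose _).symm
    omega
  · intro T
    obtain ⟨O, hO⟩ := T.2.ex
    by_contra hc
    have h6 := index_eq hq hs hk T.2.le
    have h7 : finrank (ZMod p) V - finrank (ZMod p) (sp p hq T.1) = 0 := by omega
    rw [h7, pow_zero, Subgroup.index_eq_one] at h6
    apply hO.ne_top
    rw [h6, sup_top_eq]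

include hs hk in
/-- the intersection of the minimal compatible subgroups has order at most `p` modulo `F*^p` -/
theorem small_D (hp2 : p ≠ 2) (hζ : ∃ ζ : F, IsPrimitiveRoot ζ p) (hfin : (powers F p).index ≠ 0)
    (h : (finrank (ZMod p) V - 2) * (finrank (ZMod p) V - 3) / 2 <
      finrank (ZMod p) (Forms (ZMod p) (Est q))) :
    (∃ a : MinT p F, finrank (ZMod p) (sp p hq a.1) + 2 ≤ finrank (ZMod p) V) ∧
    finrank (ZMod p) (sp p hq (⨅ T : MinT p F, T.1)) ≤ 1 := by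
  classical
  have hp : p.Prime := Fact.out
  have hm : (-1 : Fˣ) ∈ powers F p := Pool.Agent.N908.FR.neg_one_mem hp2
  have hFin := finite_MinT hfin
  have hFt : Fintype (MinT p F) := Fintype.ofFinite _
  obtain ⟨T₀, hT₀, hP₀⟩ := lx2 p V (Est q) h
  obtain ⟨T₁, hT₁, hle₁⟩ := ofPart hq hs hk co hp2 hζ hfin hT₀ hP₀
  obtain ⟨a, ha⟩ : ∃ a : MinT p F, a.1 = T₁ := ⟨⟨T₁, hT₁⟩, rfl⟩
  have hmono : ∀ T T' : Subgroup Fˣ, T ≤ T' → finrank (ZMod p) (sp p hq T) ≤
      finrank (ZMod p) (sp p hq T') := by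
    intro T T' hTT
    apply finrank_mono
    intro x hx
    obtain ⟨t, ht, rfl⟩ := (mem_sp hq).1 hx
    exact (mem_sp hq).2 ⟨t, hTT ht, rfl⟩
  have ha2 : finrank (ZMod p) (sp p hq a.1) + 2 ≤ finrank (ZMod p) V := by
    rw [ha]
    have := hmono _ _ hle₁
    rw [sp_sg hq hs] at this
    omega
  refine ⟨⟨a, ha2⟩, ?_⟩
  by_contra hd
  obtain ⟨h1, h2, h3⟩ := family hq hs hk hp2 hζ hfin a
  rw [← Finset.add_sum_erase Finset.univ _ (Finset.mem_univ a)] at h1 h2
  have hA := num1 (d := finrank (ZMod p) (sp p hq (⨅ T : MinT p F, T.1)))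
    (f := finrank (ZMod p) V - finrank (ZMod p) (sp p hq a.1))
    (A := ∑ T ∈ Finset.univ.erase a, (finrank (ZMod p) V - finrank (ZMod p) (sp p hq T.1)))
    (Q := ∑ T ∈ Finset.univ.erase a, (finrank (ZMod p) V - finrank (ZMod p) (sp p hq T.1)) *
        (finrank (ZMod p) V - finrank (ZMod p) (sp p hq T.1)))
    (by omega) (by omega) (by omega) (sum_sq_le _ _) h (by omega)
  have huniq : ∀ T : MinT p F, T = a := by
    intro T
    by_contra hT
    have h4 := Finset.sum_eq_zero_iff.1 hA T (Finset.mem_erase.2 ⟨hT, Finset.mem_univ T⟩)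
    have := h3 T
    omega
  have hDa : (⨅ T : MinT p F, T.1) = a.1 := by
    apply le_antisymm (iInf_le _ a)
    refine le_iInf fun T => ?_
    rw [huniq T]
  rw [hA, add_zero] at h2
  have h5 := num2 (d := finrank (ZMod p) (sp p hq (⨅ T : MinT p F, T.1)))
    (f := finrank (ZMod p) V - finrank (ZMod p) (sp p hq a.1)) h2 (by omega) (by omega) h
  rw [hDa] at h5 hd
  obtain ⟨T', hT', hDT', hP'⟩ := Pool.Agent.P8H55.EC2.lc p V (Est q) (sp p hq a.1) (by
    rintro t' ht' x'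
    obtain ⟨t, ht, rfl⟩ := (mem_sp hq).1 ht'
    obtain ⟨x, rfl⟩ := hs x'
    obtain ⟨z, d, hz, e⟩ := t_A F p Fact.out hp2 (p_ne hζ) a.1 (relIndex_ne hq hs hk a.2.le) a.2 t ht x
    refine ⟨q (x⁻¹ * z), (mem_sp hq).2 ⟨_, hz, rfl⟩, z, t * d ^ p, ?_, ?_, ?_⟩
    · rw [Units.val_mul, Units.val_pow_eq_pow_val, e]
    · rw [← hq, mul_inv_cancel_left]
    · rw [hq, q_pow hk, add_zero]) (by omega) h5
  obtain ⟨T₂, hT₂, hle₂⟩ := ofPart hq hs hk co hp2 hζ hfin hT' hP'
  have h6 : T₂ = a.1 := congrArg Subtype.val (huniq ⟨T₂, hT₂⟩)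
  apply hDT'
  intro x hx
  obtain ⟨t, ht, rfl⟩ := (mem_sp hq).1 hx
  rw [h6] at hle₂
  exact hle₂ ht

end

end Pool.Agent.P8H47.EC2
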