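import Pool.Agent.P8H47.EC2.Thr
import Pool.Agent.P8H47.EC2.CardS

/-! # Project EC2: fields with many symbols, the three cases -/

set_option autoImplicit false

namespace Pool.Agent.P8H47.EC2

open Module Submodule Function
open Pool.Agent.Y920.EP
open Pool.Agent.R675.TP
open Pool.Agent.P8H47.EC
open Pool.Agent.N908.FR (Forms Est IsSymbol sg mem_sg relIndex_sg card_symbols exists_form)
open Pool.Agent.Results.MP_600e55_nt.SymbolPartitions

variable {p : ℕ} [Fact p.Prime] {F : Type} [Field F]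
  {V : Type} [AddCommGroup V] [Module (ZMod p) V] [FiniteDimensional (ZMod p) V]
  {q : Fˣ → V} (hq : ∀ a b, q (a * b) = q a + q b) (hs : Surjective q)
  (hk : ∀ a, q a = 0 ↔ a ∈ powers F p)

/-- the third case -/
structure Third (p n : ℕ) (F : Type) [Field F] (T₁ T₂ : Subgroup Fˣ) : Prop where
  min₁ : MinCp p T₁
  min₂ : MinCp p T₂
  only : ∀ T : Subgroup Fˣ, MinCp p T → T = T₁ ∨ T = T₂
  inf : T₁ ⊓ T₂ = powers F p
  sup : T₁ ⊔ T₂ = ⊤
  index₁ : T₁.index = p ^ 2
  index₂ : T₂.index = p ^ (n - 2)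
  card : Nat.card {c : Fˣ → Fˣ → ZMod p // IsSymbol p F c} = p ^ ((n - 2) * (n - 3) / 2 + 1)
  symb : ∀ c : Fˣ → Fˣ → ZMod p, IsSymbol p F c → ∀ x ∈ T₁, ∀ y ∈ T₂, c x y = 0

include hq hs hk in
theorem three (hp2 : p ≠ 2) (hζ : ∃ ζ : F, IsPrimitiveRoot ζ p) (hfin : (powers F p).index ≠ 0)
    (h : (finrank (ZMod p) V - 2) * (finrank (ZMod p) V - 3) / 2 <
      finrank (ZMod p) (Forms (ZMod p) (Est q))) :
    ((∃ O : ValuationSubring F, IsCompatible p O) ∧
      ∀ K : IntermediateField F (AlgebraicClosure F), IsMaximalPExtension p K →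
        IsDecompositionGroup (⊤ : Subgroup (↥K ≃ₐ[F] ↥K)) ∧ ConclusionOfQ1 p K) ∨
    (∃ t : Fˣ, t ∉ powers F p ∧ normGroup p t = ⊤ ∧
      (∀ c : Fˣ → Fˣ → ZMod p, IsSymbol p F c → ∀ x, c t x = 0) ∧
      MinCp p (Subgroup.zpowers t ⊔ powers F p)) ∨
    ∃ T₁ T₂ : Subgroup Fˣ, Third p (finrank (ZMod p) V) F T₁ T₂ := by
  classical
  have hp : p.Prime := Fact.out
  have hm : (-1 : Fˣ) ∈ powers F p := Pool.Agent.N908.FR.neg_one_mem hp2
  obtain ⟨⟨a, ha⟩, hd⟩ := small_D hq hs hk hp2 hζ hfin h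
  by_cases h0 : finrank (ZMod p) (sp p hq a.1) = 0
  · left
    have e := eq_powers hq hs hk a.2.le h0
    obtain ⟨O, hO⟩ := a.2.ex
    rw [e] at hO
    have hO' : IsCompatible p O := by
      refine ⟨hO.inv_mem, fun x hx hx' => ?_, hO.ne_top⟩
      obtain ⟨t, ⟨y, hy⟩, e⟩ := hO.one_add x hx hx'
      refine ⟨y, ?_⟩
      rw [← e, ← hy]
      rfl
    exact ⟨⟨O, hO'⟩, fun K hK => conclusion hp2 hζ O hO' K hK⟩
  by_cases h1 : finrank (ZMod p) (sp p hq a.1) = 1
  · right; left
    obtain ⟨t, ht, e⟩ := eq_zpowers hq hs hk a.2.le h1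
    have hT : MinCp p (Subgroup.zpowers t ⊔ powers F p) := e ▸ a.2
    have htT : t ∈ Subgroup.zpowers t ⊔ powers F p :=
      Subgroup.mem_sup_left (Subgroup.mem_zpowers t)
    have hrel := relIndex_ne hq hs hk hT.le
    refine ⟨t, ht, ?_, ?_, hT⟩
    · rw [eq_top_iff]
      intro x _
      obtain ⟨z, d, hz, e⟩ := t_A F p Fact.out hp2 (p_ne hζ) _ hrel hT t htT x
      have h2 := norm_of_A hp2 e
      have h3 : Subgroup.zpowers t ⊔ powers F p ≤ normGroup p t := by
        refine sup_le ?_ ?_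
        · rw [Subgroup.zpowers_le]
          exact self_mem hp2 hζ ht
        · rintro _ ⟨y, rfl⟩
          exact (Pool.Agent.Y349.EP.t_NG p Fact.out hp2 F).1 t y
      have h4 := mul_mem h2 (inv_mem (h3 hz))
      rwa [mul_inv_rev, inv_inv, mul_inv_cancel_left] at h4
    · intro c hc x
      exact symbol_A hp2 hζ hrel hT hc (symbol_zpowers hp2 hc t) t htT x
  right; right
  have hFin := finite_MinT hfin
  have hFt : Fintype (MinT p F) := Fintype.ofFinite _
  have hne : Nonempty (MinT p F) := ⟨a⟩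
  obtain ⟨f1, f2, f3⟩ := family hq hs hk hp2 hζ hfin a
  rw [← Finset.add_sum_erase Finset.univ _ (Finset.mem_univ a)] at f1 f2
  obtain ⟨g1, g2, g3, g4⟩ := num3 (d := finrank (ZMod p) (sp p hq (⨅ T : MinT p F, T.1)))
    (f := finrank (ZMod p) V - finrank (ZMod p) (sp p hq a.1))
    (A := ∑ T ∈ Finset.univ.erase a, (finrank (ZMod p) V - finrank (ZMod p) (sp p hq T.1)))
    (Q := ∑ T ∈ Finset.univ.erase a, (finrank (ZMod p) V - finrank (ZMod p) (sp p hq T.1)) *
        (finrank (ZMod p) V - finrank (ZMod p) (sp p hq T.1)))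
    (by omega) hd (by omega) (by omega) (sum_sq_le _ _) h (by omega)
  -- the second subgroup
  obtain ⟨b, hb⟩ : ∃ b : MinT p F, b ∈ Finset.univ.erase a := by
    by_contra hc
    push Not at hc
    have h2 : Finset.univ.erase a = ∅ := Finset.eq_empty_of_forall_notMem hc
    rw [h2, Finset.sum_empty] at f2
    omega
  have hab : b ≠ a := Finset.ne_of_mem_erase hb
  have honly : ∀ T : MinT p F, T = a ∨ T = b := by
    intro T
    by_cases hT : T = a
    · exact Or.inl hT
    · right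
      exact sum_sq_eq _ _ (fun i _ => f3 i) g2 T b
        (Finset.mem_erase.2 ⟨hT, Finset.mem_univ T⟩) hb
  have herase : Finset.univ.erase a = {b} := by
    ext T
    rw [Finset.mem_erase, Finset.mem_singleton]
    constructor
    · rintro ⟨h2, -⟩
      exact (honly T).resolve_left h2
    · rintro rfl
      exact ⟨hab, Finset.mem_univ _⟩
  rw [herase, Finset.sum_singleton] at f2 g4
  have hinf : (⨅ T : MinT p F, T.1) = a.1 ⊓ b.1 := by
    apply le_antisymm (le_inf (iInf_le _ a) (iInf_le _ b))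
    refine le_iInf fun T => ?_
    rcases honly T with rfl | rfl
    · exact inf_le_left
    · exact inf_le_right
  have hD : pwG F p ≤ ⨅ T : MinT p F, T.1 := le_iInf fun T => T.2.le
  have hpow : a.1 ⊓ b.1 = powers F p := by
    rw [← hinf]
    exact eq_powers hq hs hk hD g1
  have hcard := card_symbols' hm hq hs hk
  rw [g3] at hcard
  -- the data
  choose O J hdat using fun T : MinT p F => mn hp (p_ne hζ) (relIndex_ne hq hs hk T.2.le) T.2
  have hnl : ∀ T T' : MinT p F, T ≠ T' → ¬ T.1 ≤ T'.1 := fun T T' hTT =>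
    not_le_of_ne T.2 T'.2 fun e => hTT (Subtype.ext e)
  have hsup : a.1 ⊔ b.1 = ⊤ := by
    rw [eq_top_iff]
    intro x _
    obtain ⟨z, hz⟩ := claim3 hdat Pool.Agent.P8H55.EC2.ap hnl Finset.univ
      (fun T => if T = a then x else 1)
    have h2 := (hz a (Finset.mem_univ a)).1
    have h3 := (hz b (Finset.mem_univ b)).1
    rw [if_pos rfl] at h2
    rw [if_neg hab, inv_one, one_mul] at h3
    have h4 := mul_mem (show z ∈ a.1 ⊔ b.1 from Subgroup.mem_sup_right h3)
      (inv_mem (show x⁻¹ * z ∈ a.1 ⊔ b.1 from Subgroup.mem_sup_left h2))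
    rwa [mul_inv_rev, inv_inv, mul_inv_cancel_left] at h4
  have hsymb : ∀ c : Fˣ → Fˣ → ZMod p, IsSymbol p F c → ∀ x ∈ a.1, ∀ y ∈ b.1, c x y = 0 := by
    intro c hc x hx y hy
    obtain ⟨z, v, hv, hzv⟩ := claim5 hdat Pool.Agent.P8H55.EC2.ap hm hnl Finset.univ
      Finset.univ_nonempty x y (by
        intro T _
        rcases honly T with rfl | rfl
        · exact Or.inl hx
        · exact Or.inr hy)
    have h2 : ∀ w : Fˣ, (∀ T : MinT p F, w ∈ T.1) → w ∈ powers F p := by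
      intro w hw
      rw [← hpow]
      exact ⟨hw a, hw b⟩
    have h3 : ∀ t ∈ powers F p, ∀ x : Fˣ, c t x = 0 ∧ c x t = 0 := fun t ht x =>
      ⟨hc.of_mem_left ht x, hc.of_mem_right ht x⟩
    rw [congr0 hc h3 (h2 _ fun T => (hzv T (Finset.mem_univ T)).1)
      (h2 _ fun T => (hzv T (Finset.mem_univ T)).2)]
    exact one_add0 hm hc z v hv
  have hind : ∀ T : MinT p F, T.1.index =
      p ^ (finrank (ZMod p) V - finrank (ZMod p) (sp p hq T.1)) := fun T =>
    index_eq hq hs hk T.2.le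
  have hanti : ∀ c : Fˣ → Fˣ → ZMod p, IsSymbol p F c → ∀ x ∈ b.1, ∀ y ∈ a.1, c x y = 0 := by
    intro c hc x hx y hy
    rw [anti0 hm hc, hsymb c hc y hy x hx, neg_zero]
  rcases g4 with g | g
  · refine ⟨a.1, b.1, a.2, b.2, fun T hT => ?_, hpow, hsup, ?_, ?_, hcard, hsymb⟩
    · rcases honly ⟨T, hT⟩ with h2 | h2
      · exact Or.inl (congrArg Subtype.val h2)
      · exact Or.inr (congrArg Subtype.val h2)
    · rw [hind a, g]
    · rw [hind b]
      congr 1
      omega
  · refine ⟨b.1, a.1, b.2, a.2, fun T hT => ?_, by rw [inf_comm, hpow], by rw [sup_comm, hsup], ?_,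
      ?_, hcard, hanti⟩
    · rcases honly ⟨T, hT⟩ with h2 | h2
      · exact Or.inr (congrArg Subtype.val h2)
      · exact Or.inl (congrArg Subtype.val h2)
    · rw [hind b, g]
    · rw [hind a]
      congr 1
      omega

end Pool.Agent.P8H47.EC2
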